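import Pool.Agent.Lib.MP_3e27e0_al.PR.Disp

/-!
# Project PR: subgroups of finite index of F are virtually abelian modulo the commutators of compactly
# supported elements

Choose `N ≥ 1` with `X = x^N`, `U = u^N`, `V = v^N` in `F1` (`Subgroup.exists_pow_mem_of_index_ne_zero`,
product of three numbers). `Γ0` = the `f` in `F1` such that `f (U^a V^b)⁻¹` is compactly supported for some
integers `a, b` (a subgroup: compactly supported elements form a normal subgroup of F by `germ0`,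
`germ1`, and `U V = V U` by `comm_disj`; finite index: every `f` in F has `f (u^a v^b)⁻¹` compactly
supported for some `a, b`, and `(a mod N, b mod N)` separates the cosets of `Γ0`). In `Q = F1 / K`:
(i) compactly supported elements commute (hypothesis); (ii) `U` commutes with compactly supported `k`:
for large `n` the element `U' = X^n U X^-n` is the identity above the support of ... (`small`), so it
commutes with `k` (`comm_disj`), it has the same germs as `U` at 0 and 1, so `U'⁻¹ U` is compactly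
supported and commutes with `k` modulo `K` by (i); (iii) the same for `V` with `X^-n V X^n` (`big`);
(iv) `U V = V U`. So all elements of `Γ0` commute in `Q`.
-/

set_option autoImplicit false

namespace Pool.Agent.Lib.MP_3e27e0_al.PR

open Pool.Agent.Lib.MP_3e27e0_al.CM

theorem Cpt.one : Cpt 1 := ⟨1, one_pos, fun _ _ => rfl⟩

/-- The slopes at 0 and 1 are `2^k` and `2^l`. -/
private def Gm (f : UI ≃o UI) (k l : ℤ) : Prop :=
  ∃ e : ℝ, 0 < e ∧ (∀ t : UI, (t : ℝ) ≤ e → (f t : ℝ) = (2 : ℝ) ^ k * t) ∧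
    ∀ t : UI, 1 - e ≤ (t : ℝ) → 1 - (f t : ℝ) = (2 : ℝ) ^ l * (1 - t)

private theorem Gm.mul {f g : UI ≃o UI} {k l k' l' : ℤ} (hf : Gm f k l) (hg : Gm g k' l') :
    Gm (f * g) (k + k') (l + l') := by
  obtain ⟨e, he, h0, h1⟩ := hf
  obtain ⟨d, hd, g0, g1⟩ := hg
  have p0 : (0 : ℝ) < 2 ^ k' := by positivity
  have p1 : (0 : ℝ) < 2 ^ l' := by positivity
  refine ⟨min d (min (e / 2 ^ k') (e / 2 ^ l')), by positivity, fun t ht => ?_, fun t ht => ?_⟩
  · have a1 : (t : ℝ) ≤ d := ht.trans (min_le_left _ _)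
    have a2 : (t : ℝ) ≤ e / 2 ^ k' := ht.trans ((min_le_right _ _).trans (min_le_left _ _))
    rw [le_div_iff₀ p0] at a2
    change (f (g t) : ℝ) = _
    rw [h0 (g t) (by rw [g0 t a1]; linarith), g0 t a1, zpow_add₀ (by norm_num)]
    ring
  · have a1 : 1 - d ≤ (t : ℝ) := by linarith [min_le_left d (min (e / 2 ^ k') (e / 2 ^ l'))]
    have a2 : 1 - (t : ℝ) ≤ e / 2 ^ l' := by
      have := (min_le_right d (min (e / 2 ^ k') (e / 2 ^ l'))).trans (min_le_right _ _)
      linarith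
    rw [le_div_iff₀ p1] at a2
    change 1 - (f (g t) : ℝ) = _
    have a3 := g1 t a1
    rw [h1 (g t) (by linarith), a3, zpow_add₀ (by norm_num)]
    ring

private theorem Gm.inv {f : UI ≃o UI} {k l : ℤ} (hf : Gm f k l) : Gm f⁻¹ (-k) (-l) := by
  obtain ⟨e, he, h0, h1⟩ := hf
  have p0 : (0 : ℝ) < 2 ^ k := by positivity
  have p1 : (0 : ℝ) < 2 ^ l := by positivity
  have hm : 0 < min e 1 := lt_min he one_pos
  refine ⟨min (2 ^ k * min e 1) (2 ^ l * min e 1), by positivity, fun s hs => ?_, fun s hs => ?_⟩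
  · have a1 : (s : ℝ) ≤ 2 ^ k * min e 1 := hs.trans (min_le_left _ _)
    have a2 : (2 : ℝ) ^ (-k) * s ≤ min e 1 := by
      rw [zpow_neg, inv_mul_le_iff₀ p0]
      exact a1
    have a3 : 0 ≤ (2 : ℝ) ^ (-k) * s := mul_nonneg (by positivity) s.2.1
    let t : UI := ⟨(2 : ℝ) ^ (-k) * s, a3, a2.trans (min_le_right _ _)⟩
    have a4 : f t = s := by
      apply Subtype.ext
      rw [h0 t (a2.trans (min_le_left _ _))]
      change (2 : ℝ) ^ k * ((2 : ℝ) ^ (-k) * s) = s
      rw [← mul_assoc, ← zpow_add₀ (by norm_num), add_neg_cancel, zpow_zero, one_mul]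
    have a5 : f⁻¹ s = t := by
      rw [← a4]
      exact RelIso.inv_apply_self f t
    rw [a5]
  · have a1 : 1 - (s : ℝ) ≤ 2 ^ l * min e 1 := by
      linarith [min_le_right ((2 : ℝ) ^ k * min e 1) (2 ^ l * min e 1)]
    have a2 : (2 : ℝ) ^ (-l) * (1 - s) ≤ min e 1 := by
      rw [zpow_neg, inv_mul_le_iff₀ p1]
      exact a1
    have a3 : 0 ≤ (2 : ℝ) ^ (-l) * (1 - s) := mul_nonneg (by positivity) (by linarith [s.2.2])
    let t : UI := ⟨1 - (2 : ℝ) ^ (-l) * (1 - s), by linarith [min_le_right e 1], by linarith⟩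
    have a6 : (t : ℝ) = 1 - (2 : ℝ) ^ (-l) * (1 - s) := rfl
    have a4 : f t = s := by
      apply Subtype.ext
      have a7 := h1 t (by rw [a6]; linarith [min_le_left e 1])
      have a8 : (2 : ℝ) ^ l * (1 - (t : ℝ)) = 1 - s := by
        rw [a6]
        have a9 : (2 : ℝ) ^ l * (2 : ℝ) ^ (-l) = 1 := by
          rw [← zpow_add₀ (by norm_num), add_neg_cancel, zpow_zero]
        linear_combination (1 - (s : ℝ)) * a9
      linarith
    have a5 : f⁻¹ s = t := by
      rw [← a4]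
      exact RelIso.inv_apply_self f t
    rw [a5, a6]
    ring

private theorem gm_zero_iff {f : UI ≃o UI} : Gm f 0 0 ↔ Cpt f := by
  constructor
  · rintro ⟨e, he, h0, h1⟩
    refine ⟨e, he, fun t ht => Subtype.ext ?_⟩
    rcases ht with ht | ht
    · rw [h0 t ht]
      simp
    · have := h1 t ht
      rw [zpow_zero, one_mul] at this
      linarith
  · rintro ⟨e, he, h⟩
    refine ⟨e, he, fun t ht => ?_, fun t ht => ?_⟩
    · rw [h t (Or.inl ht)]
      simp
    · rw [h t (Or.inr ht)]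
      simp

private theorem Gm.one : Gm 1 0 0 := gm_zero_iff.2 Cpt.one

private theorem Gm.npow {f : UI ≃o UI} {k l : ℤ} (hf : Gm f k l) (n : ℕ) :
    Gm (f ^ n) (n * k) (n * l) := by
  induction n with
  | zero => simpa using Gm.one
  | succ n ih =>
    have h := ih.mul hf
    rw [← pow_succ] at h
    have e1 : (n : ℤ) * k + k = ((n + 1 : ℕ) : ℤ) * k := by push_cast; ring
    have e2 : (n : ℤ) * l + l = ((n + 1 : ℕ) : ℤ) * l := by push_cast; ring
    rwa [e1, e2] at h

private theorem Gm.zpow {f : UI ≃o UI} {k l : ℤ} (hf : Gm f k l) (n : ℤ) :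
    Gm (f ^ n) (n * k) (n * l) := by
  obtain ⟨m, rfl | rfl⟩ := n.eq_nat_or_neg
  · rw [zpow_natCast]
    exact hf.npow m
  · rw [zpow_neg, zpow_natCast]
    have h := (hf.npow m).inv
    rwa [← neg_mul, ← neg_mul] at h

private theorem Gm.of_isT {f : UI ≃o UI} (hf : IsT f) : ∃ k l : ℤ, Gm f k l := by
  obtain ⟨e, he, k, h0⟩ := germ0 hf
  obtain ⟨d, hd, l, h1⟩ := germ1 hf
  refine ⟨k, l, min e d, lt_min he hd, fun t ht => h0 t (ht.trans (min_le_left _ _)),
    fun t ht => h1 t ?_⟩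
  linarith [min_le_right e d]

theorem Cpt.mul {f g : UI ≃o UI} (hf : Cpt f) (hg : Cpt g) : Cpt (f * g) := by
  have h := (gm_zero_iff.2 hf).mul (gm_zero_iff.2 hg)
  rw [add_zero] at h
  exact gm_zero_iff.1 h

theorem Cpt.inv {f : UI ≃o UI} (hf : Cpt f) : Cpt f⁻¹ := by
  have h := (gm_zero_iff.2 hf).inv
  rw [neg_zero] at h
  exact gm_zero_iff.1 h

section Elem

variable {x u v : UI ≃o UI} (hE : Elem x u v)

include hE

private theorem gm_x : Gm x (-1) 1 := by
  refine ⟨1 / 4, by norm_num, fun t ht => ?_, fun t ht => ?_⟩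
  · rw [hE.x0 t (by linarith), zpow_neg_one]
    ring
  · rw [hE.x1 t (by linarith), zpow_one]

private theorem gm_u : Gm u (-1) 0 := by
  refine ⟨1 / 4, by norm_num, fun t ht => ?_, fun t ht => ?_⟩
  · rw [hE.u0 t (by linarith), zpow_neg_one]
    ring
  · rw [hE.u1 t (by linarith), zpow_zero, one_mul]

private theorem gm_v : Gm v 0 1 := by
  refine ⟨1 / 8, by norm_num, fun t ht => ?_, fun t ht => ?_⟩
  · rw [hE.v0 t (by linarith), zpow_zero, one_mul]
  · rw [hE.v1 t (by linarith), zpow_one]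

omit hE in
private theorem fix_pow {f : UI ≃o UI} {t : UI} (h : f t = t) (n : ℕ) : (f ^ n) t = t := by
  induction n with
  | zero => rfl
  | succ n ih =>
    rw [pow_succ]
    change (f ^ n) (f t) = t
    rw [h, ih]

private theorem u_comm (N : ℕ) {k : UI ≃o UI} (hk : Cpt k) (hN : N ≠ 0) :
    ∃ n : ℕ, Commute ((x ^ N) ^ n * u ^ N * ((x ^ N) ^ n)⁻¹) k := by
  obtain ⟨e, he, hke⟩ := hk
  obtain ⟨n0, hn0⟩ := small hE ⟨1 / 2, by norm_num, by norm_num⟩ (by norm_num) e he
  refine ⟨n0, ?_⟩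
  have h1 := hn0 (N * n0) (Nat.le_mul_of_pos_left n0 (Nat.pos_of_ne_zero hN))
  rw [pow_mul] at h1
  refine comm_disj (((x ^ N) ^ n0) ⟨1 / 2, by norm_num, by norm_num⟩) (fun t ht => ?_)
    (fun t ht => ?_)
  · change ((x ^ N) ^ n0) ((u ^ N) (((x ^ N) ^ n0)⁻¹ t)) = t
    have h2 : (⟨1 / 2, by norm_num, by norm_num⟩ : UI) ≤ ((x ^ N) ^ n0)⁻¹ t := by
      rw [← ((x ^ N) ^ n0).le_iff_le]
      have h3 : ((x ^ N) ^ n0) (((x ^ N) ^ n0)⁻¹ t) = t := RelIso.apply_inv_self _ _
      rw [h3]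
      exact ht
    rw [fix_pow (hE.u1 _ h2)]
    exact RelIso.apply_inv_self _ _
  · exact hke t (Or.inl (le_trans (Subtype.coe_le_coe.2 ht) h1))

private theorem v_comm (N : ℕ) {k : UI ≃o UI} (hk : Cpt k) (hN : N ≠ 0) :
    ∃ n : ℕ, Commute k (((x ^ N) ^ n)⁻¹ * v ^ N * (x ^ N) ^ n) := by
  obtain ⟨e, he, hke⟩ := hk
  obtain ⟨n0, hn0⟩ := big hE ⟨1 / 2, by norm_num, by norm_num⟩ (by norm_num) e he
  refine ⟨n0, ?_⟩
  have h1 := hn0 (N * n0) (Nat.le_mul_of_pos_left n0 (Nat.pos_of_ne_zero hN))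
  rw [inv_pow, pow_mul] at h1
  refine comm_disj ((((x ^ N) ^ n0)⁻¹) ⟨1 / 2, by norm_num, by norm_num⟩) (fun t ht => ?_)
    (fun t ht => ?_)
  · exact hke t (Or.inr (le_trans h1 (Subtype.coe_le_coe.2 ht)))
  · change (((x ^ N) ^ n0)⁻¹) ((v ^ N) (((x ^ N) ^ n0) t)) = t
    have h2 : ((x ^ N) ^ n0) t ≤ (⟨1 / 2, by norm_num, by norm_num⟩ : UI) := by
      have h3 : ((x ^ N) ^ n0) ((((x ^ N) ^ n0)⁻¹) ⟨1 / 2, by norm_num, by norm_num⟩) =
        (⟨1 / 2, by norm_num, by norm_num⟩ : UI) := RelIso.apply_inv_self _ _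
      rw [← h3, ((x ^ N) ^ n0).le_iff_le]
      exact ht
    rw [fix_pow (hE.v0 _ h2)]
    exact RelIso.inv_apply_self _ _

private theorem uv_comm (N : ℕ) : Commute (u ^ N) (v ^ N) :=
  comm_disj ⟨1 / 2, by norm_num, by norm_num⟩
    (fun _ ht => fix_pow (hE.u1 _ (Subtype.coe_le_coe.2 ht)) N)
    (fun _ ht => fix_pow (hE.v0 _ (Subtype.coe_le_coe.2 ht)) N)

end Elem

theorem ab_F {x u v : UI ≃o UI} (hE : Elem x u v) (F1 : Subgroup ThompsonF) (h1 : F1.FiniteIndex)
    (K : Subgroup F1) (hK : K.Normal)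
    (hC : ∀ g h : F1, Cpt ((g : ThompsonF) : UI ≃o UI) → Cpt ((h : ThompsonF) : UI ≃o UI) →
      g * h * g⁻¹ * h⁻¹ ∈ K) :
    ∃ Γ0 : Subgroup F1, Γ0.FiniteIndex ∧ ∀ f ∈ Γ0, ∀ g ∈ Γ0, f * g * f⁻¹ * g⁻¹ ∈ K := by
  obtain ⟨a, ha, -, hax⟩ := Subgroup.exists_pow_mem_of_index_ne_zero h1.index_ne_zero
    (⟨x, hE.xT⟩ : ThompsonF)
  obtain ⟨b, hb, -, hbu⟩ := Subgroup.exists_pow_mem_of_index_ne_zero h1.index_ne_zero
    (⟨u, hE.uT⟩ : ThompsonF)
  obtain ⟨c, hc, -, hcv⟩ := Subgroup.exists_pow_mem_of_index_ne_zero h1.index_ne_zero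
    (⟨v, hE.vT⟩ : ThompsonF)
  set N : ℕ := a * b * c with hN
  have hN0 : N ≠ 0 := by positivity
  have hX : (⟨x, hE.xT⟩ : ThompsonF) ^ N ∈ F1 := by
    have : N = a * (b * c) := by rw [hN]; ring
    rw [this, pow_mul]
    exact F1.pow_mem hax _
  have hU : (⟨u, hE.uT⟩ : ThompsonF) ^ N ∈ F1 := by
    have : N = b * (a * c) := by rw [hN]; ring
    rw [this, pow_mul]
    exact F1.pow_mem hbu _
  have hV : (⟨v, hE.vT⟩ : ThompsonF) ^ N ∈ F1 := by
    have : N = c * (a * b) := by rw [hN]; ring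
    rw [this, pow_mul]
    exact F1.pow_mem hcv _
  let om : F1 →* (UI ≃o UI) := (Subgroup.subtype ThompsonF).comp (Subgroup.subtype F1)
  have hom : ∀ g : F1, om g = ((g : ThompsonF) : UI ≃o UI) := fun _ => rfl
  have hinj : Function.Injective om := fun g h e => Subtype.ext (Subtype.ext e)
  let X : F1 := ⟨_, hX⟩
  let U : F1 := ⟨_, hU⟩
  let V : F1 := ⟨_, hV⟩
  have oX : om X = x ^ N := by
    change (((⟨x, hE.xT⟩ : ThompsonF) ^ N : ThompsonF) : UI ≃o UI) = x ^ N
    rw [Subgroup.coe_pow]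
  have oU : om U = u ^ N := by
    change (((⟨u, hE.uT⟩ : ThompsonF) ^ N : ThompsonF) : UI ≃o UI) = u ^ N
    rw [Subgroup.coe_pow]
  have oV : om V = v ^ N := by
    change (((⟨v, hE.vT⟩ : ThompsonF) ^ N : ThompsonF) : UI ≃o UI) = v ^ N
    rw [Subgroup.coe_pow]
  have gX : Gm (om X) (N * (-1)) (N * 1) := by rw [oX]; exact (gm_x hE).npow N
  have gU : Gm (om U) (N * (-1)) (N * 0) := by rw [oU]; exact (gm_u hE).npow N
  have gV : Gm (om V) (N * 0) (N * 1) := by rw [oV]; exact (gm_v hE).npow N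
  -- the subgroup
  let Γ0 : Subgroup F1 :=
    { carrier := {f | ∃ k l : ℤ, Gm (om f) (N * k) (N * l)}
      one_mem' := ⟨0, 0, by rw [map_one, mul_zero]; exact Gm.one⟩
      mul_mem' := by
        rintro f g ⟨k, l, hf⟩ ⟨k', l', hg⟩
        refine ⟨k + k', l + l', ?_⟩
        rw [map_mul, mul_add, mul_add]
        exact hf.mul hg
      inv_mem' := by
        rintro f ⟨k, l, hf⟩
        refine ⟨-k, -l, ?_⟩
        rw [map_inv, mul_neg, mul_neg]
        exact hf.inv }
  refine ⟨Γ0, ?_, ?_⟩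
  · have key : ∀ q : F1 ⧸ Γ0, ∃ kl : ℤ × ℤ, Gm (om q.out) kl.1 kl.2 := by
      intro q
      obtain ⟨k, l, h⟩ := Gm.of_isT (f := om q.out) (q.out : ThompsonF).2
      exact ⟨(k, l), h⟩
    choose κ hκ using key
    haveI : NeZero N := ⟨hN0⟩
    have hfin : Finite (F1 ⧸ Γ0) := by
      refine Finite.of_injective (fun q => (((κ q).1 : ZMod N), ((κ q).2 : ZMod N))) ?_
      intro q q' h
      have h2 : ((κ q).1 : ZMod N) = ((κ q').1 : ZMod N) := congrArg Prod.fst h
      have h3 : ((κ q).2 : ZMod N) = ((κ q').2 : ZMod N) := congrArg Prod.snd h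
      rw [ZMod.intCast_eq_intCast_iff_dvd_sub] at h2 h3
      obtain ⟨r, hr⟩ := h2
      obtain ⟨s, hs⟩ := h3
      rw [← q.out_eq', ← q'.out_eq']
      refine QuotientGroup.eq.2 ⟨r, s, ?_⟩
      have h4 := (hκ q).inv.mul (hκ q')
      rw [← map_inv, ← map_mul] at h4
      have e1 : -(κ q).1 + (κ q').1 = (N : ℤ) * r := by linarith
      have e2 : -(κ q).2 + (κ q').2 = (N : ℤ) * s := by linarith
      rw [e1, e2] at h4
      exact h4
    exact Subgroup.finiteIndex_of_finite_quotient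
  · -- commutation modulo K
    let mk : F1 →* F1 ⧸ K := QuotientGroup.mk' K
    have hmk : ∀ f g : F1, Commute (mk f) (mk g) → f * g * f⁻¹ * g⁻¹ ∈ K := by
      intro f g h
      rw [← QuotientGroup.eq_one_iff]
      change mk (f * g * f⁻¹ * g⁻¹) = 1
      rw [map_mul, map_mul, map_mul, map_inv, map_inv, h.eq]
      group
    have c1 : ∀ g h : F1, Cpt (om g) → Cpt (om h) → Commute (mk g) (mk h) := by
      intro g h hg hh
      have h2 : mk (g * h * g⁻¹ * h⁻¹) = 1 := (QuotientGroup.eq_one_iff _).2 (hC g h hg hh)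
      rw [map_mul, map_mul, map_mul, map_inv, map_inv, mul_inv_eq_one, mul_inv_eq_iff_eq_mul] at h2
      exact h2
    have c2 : ∀ k : F1, Cpt (om k) → Commute (mk U) (mk k) := by
      intro k hk
      obtain ⟨n, hn⟩ := u_comm hE N hk hN0
      rw [← oX, ← oU, ← map_pow, ← map_inv, ← map_mul, ← map_mul] at hn
      set U' : F1 := X ^ n * U * (X ^ n)⁻¹ with hU'
      have h2 : Commute U' k := hinj (by rw [map_mul, map_mul]; exact hn.eq)
      have h3 : Cpt (om (U'⁻¹ * U)) := by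
        rw [← gm_zero_iff, map_mul, map_inv, hU', map_mul, map_mul, map_inv, map_pow]
        have h4 := (((gX.npow n).mul gU).mul (gX.npow n).inv).inv.mul gU
        convert! h4 using 1 <;> ring
      have h5 : U = U' * (U'⁻¹ * U) := by group
      rw [h5, map_mul]
      exact Commute.mul_left (h2.map mk) (c1 _ _ h3 hk)
    have c3 : ∀ k : F1, Cpt (om k) → Commute (mk V) (mk k) := by
      intro k hk
      obtain ⟨n, hn⟩ := v_comm hE N hk hN0
      rw [← oX, ← oV, ← map_pow, ← map_inv, ← map_mul, ← map_mul] at hn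
      set V' : F1 := (X ^ n)⁻¹ * V * X ^ n with hV'
      have h2 : Commute k V' := hinj (by rw [map_mul, map_mul]; exact hn.eq)
      have h3 : Cpt (om (V'⁻¹ * V)) := by
        rw [← gm_zero_iff, map_mul, map_inv, hV', map_mul, map_mul, map_inv, map_pow]
        have h4 := (((gX.npow n).inv.mul gV).mul (gX.npow n)).inv.mul gV
        convert! h4 using 1 <;> ring
      have h5 : V = V' * (V'⁻¹ * V) := by group
      rw [h5, map_mul]
      exact Commute.mul_left (h2.symm.map mk) (c1 _ _ h3 hk)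
    have c4 : Commute (mk U) (mk V) := by
      have h2 : Commute U V := hinj (by
        rw [map_mul, map_mul, oU, oV]
        exact (uv_comm hE N).eq)
      exact h2.map mk
    have dec : ∀ f ∈ Γ0, ∃ (k : F1) (a b : ℤ), Cpt (om k) ∧ f = k * (U ^ a * V ^ b) := by
      rintro f ⟨k, l, hf⟩
      refine ⟨f * (U ^ (-k) * V ^ l)⁻¹, -k, l, ?_, by group⟩
      rw [← gm_zero_iff, map_mul, map_inv, map_mul, map_zpow, map_zpow]
      have h4 := hf.mul ((gU.zpow (-k)).mul (gV.zpow l)).inv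
      convert! h4 using 1 <;> ring
    intro f hf g hg
    apply hmk
    obtain ⟨k, a, b, hk, rfl⟩ := dec f hf
    obtain ⟨k', a', b', hk', rfl⟩ := dec g hg
    simp only [map_mul, map_zpow]
    have d1 : Commute (mk k) (mk k') := c1 _ _ hk hk'
    have d2 := c2 k hk
    have d3 := c3 k hk
    have d2' := c2 k' hk'
    have d3' := c3 k' hk'
    refine Commute.mul_left (Commute.mul_right d1 (Commute.mul_right ?_ ?_))
      (Commute.mul_left (Commute.mul_right ?_ (Commute.mul_right ?_ ?_))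
        (Commute.mul_right ?_ (Commute.mul_right ?_ ?_)))
    · exact (d2.symm).zpow_right a'
    · exact (d3.symm).zpow_right b'
    · exact d2'.zpow_left a
    · exact ((Commute.refl (mk U)).zpow_left a).zpow_right a'
    · exact (c4.zpow_left a).zpow_right b'
    · exact d3'.zpow_left b
    · exact (c4.symm.zpow_left b).zpow_right a'
    · exact ((Commute.refl (mk V)).zpow_left b).zpow_right b'

end Pool.Agent.Lib.MP_3e27e0_al.PR
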