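import Pool.Agent.Lib.MP_3e27e0_al.PR.Elem
import Pool.Agent.Lib.MP_3e27e0_al.PR.Ab

/-!
# Project PR: the properties for the subgroups of finite index of F
-/

set_option autoImplicit false

namespace Pool.Agent.Lib.MP_3e27e0_al.PR

open Pool.Agent.Lib.MP_3e27e0_al.CM

theorem prp_F (F1 : Subgroup ThompsonF) (h1 : F1.FiniteIndex) :
    ∃ (y : F1) (C : Subgroup F1), Prp F1 y C := by
  obtain ⟨x, u, v, hE⟩ := exists_elem
  obtain ⟨M, hM0, -, hM⟩ := Subgroup.exists_pow_mem_of_index_ne_zero h1.index_ne_zero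
    (⟨x, hE.xT⟩ : ThompsonF)
  let cf : F1 →* (UI ≃o UI) := ThompsonF.subtype.comp F1.subtype
  have hcf : Function.Injective cf := by
    intro a b hab
    exact Subtype.ext (Subtype.ext hab)
  let y : F1 := ⟨(⟨x, hE.xT⟩ : ThompsonF) ^ M, hM⟩
  have hy : cf y = x ^ M := rfl
  have hyp : ∀ m : ℕ, cf (y ^ m) = x ^ (M * m) := by
    intro m
    rw [map_pow, hy, ← pow_mul]
  let C : Subgroup F1 :=
    { carrier := {g | Cpt (cf g)}
      one_mem' := by
        change Cpt (cf 1)
        rw [map_one]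
        exact Cpt.one
      mul_mem' := by
        intro a b ha hb
        change Cpt (cf (a * b))
        rw [map_mul]
        exact Cpt.mul ha hb
      inv_mem' := by
        intro a ha
        change Cpt (cf a⁻¹)
        rw [map_inv]
        exact Cpt.inv ha }
  refine ⟨y, C, ⟨?_, ?_, ?_⟩⟩
  · refine ⟨cf ⁻¹' ((fun j : ℕ => x ^ j) '' (Set.Iio M)),
      (Set.Finite.image _ (Set.finite_Iio M)).preimage hcf.injOn, fun g hg => ?_⟩
    have h2 : cf g * x ^ M = x ^ M * cf g := by
      have h3 := congrArg cf hg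
      rwa [map_mul, map_mul, hy] at h3
    obtain ⟨k, hk⟩ := cent_x hE g.1.2 (by omega) h2
    have hk' : cf g = x ^ k := hk
    refine ⟨k / M, y ^ (-(k / M)) * g, ?_, by rw [← mul_assoc, ← zpow_add]; simp⟩
    have hM1 : (0 : ℤ) < M := by exact_mod_cast hM0
    refine ⟨(k % M).toNat, ?_, ?_⟩
    · have h4 := Int.emod_lt_of_pos k hM1
      have h5 := Int.emod_nonneg k hM1.ne'
      change (k % M).toNat < M
      omega
    · have h5 := Int.emod_nonneg k hM1.ne'
      have h6 : ((k % M).toNat : ℤ) = k % M := Int.toNat_of_nonneg h5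
      change x ^ (k % M).toNat = cf (y ^ (-(k / M)) * g)
      rw [map_mul, map_zpow, hy, hk', ← zpow_natCast, h6, ← zpow_natCast x M, ← zpow_mul, ← zpow_add]
      congr 1
      have h7 := Int.mul_ediv_add_emod k M
      rw [mul_neg]
      omega
  · intro g hg h hh
    obtain ⟨m0, hm0⟩ := disp_x hE (g := cf g) (h := cf h) hg hh
    refine ⟨m0, fun m hm => hcf ?_⟩
    have h2 : m0 ≤ M * m := hm.trans (Nat.le_mul_of_pos_left m hM0)
    simp only [map_mul, map_inv, hyp]
    exact hm0 (M * m) h2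
  · intro K hK hC
    refine ab_F hE F1 h1 K hK fun g h hg hh => hC g hg h hh

end Pool.Agent.Lib.MP_3e27e0_al.PR
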