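import Pool.Agent.Lib.MP_3e27e0_al.PR.Def
import Pool.Agent.Lib.MP_3e27e0_al.CM.Final

/-!
# Project PR: the box product

`Model.swap`: `SimpleGraph.boxProdComm`. `fin_box`: (1) both graphs are connected
(`SimpleGraph.Connected.ofBoxProdLeft` ...), the action on the second factor is by automorphisms
(`SimpleGraph.boxProd_adj_right`), with finitely many `Γ0`-orbits. (2) For `t ∈ Γ0` the map
`(a, b) ↦ (a, t b)` is an automorphism of `G1 □ G2`; it is bounded: `d((a,b), (a, t b)) ≤ d(b, t b)`, and for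
`γ ∈ Γ0` `t γ s = γ t s` in `X2` (all commutators of elements of `Γ0` act trivially; also on the point
`s`), so `d(γ s, t γ s) = d(s, t s)`, finitely many `s`. (3) By `orb_bdd` (`CM/Final.lean`; `Δ` from
`Geometric.degree`, `lam = Δ + 2`) some power `t^n`, `n ≥ 1`, fixes the given point `b` of `X2`. (4) `Γ0`
is finitely generated (`Geometric.fg`, `Subgroup.fg_of_index_ne_zero`), the stabiliser `S` of `b` in
`Γ0` contains all commutators, so `Γ0 / S` is a finitely generated abelian torsion group, finite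
(`CommGroup.finite_of_fg_torsion`), so the orbit `Γ0 b` is finite; finitely many orbits, so `X2` is
finite.
-/

set_option autoImplicit false

namespace Pool.Agent.Lib.MP_3e27e0_al.PR

open Pool.Agent.Lib.MP_3e27e0_al.CM

open scoped SimpleGraph

variable {X1 X2 Γ : Type*} {G1 : SimpleGraph X1} {G2 : SimpleGraph X2} [Group Γ] [MulAction Γ X1]
  [MulAction Γ X2]

theorem Model.swap (hM : Model Γ (X1 × X2) (G1 □ G2)) : Model Γ (X2 × X1) (G2 □ G1) := by
  obtain ⟨hc, hl, hg⟩ := hM
  refine ⟨?_, ?_, ?_⟩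
  · exact SimpleGraph.connected_boxProd.2 (SimpleGraph.connected_boxProd.1 hc).symm
  · intro x
    have h1 := hl x.swap
    have e : (G2 □ G1).neighborSet x = Prod.swap '' (G1 □ G2).neighborSet x.swap := by
      ext y
      simp only [SimpleGraph.mem_neighborSet, Set.mem_image, SimpleGraph.boxProd_adj]
      constructor
      · intro h
        exact ⟨y.swap, h.symm, Prod.swap_swap y⟩
      · rintro ⟨z, h, rfl⟩
        exact h.symm
    rw [e]
    exact h1.image _
  · refine ⟨?_, ?_, ?_⟩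
    · intro g x y
      have h1 := hg.adj g x.swap y.swap
      simp only [SimpleGraph.boxProd_adj] at h1 ⊢
      exact or_comm.trans (h1.trans or_comm)
    · intro x
      refine (hg.fin x.swap).subset ?_
      intro g hgx
      have h1 : g • x = x := hgx
      have h2 : g • x.swap = (g • x).swap := rfl
      change g • x.swap = x.swap
      rw [h2, h1]
    · have := hg.cof
      refine Finite.of_surjective (α := MulAction.orbitRel.Quotient Γ (X1 × X2))
        (Quotient.map Prod.swap ?_) ?_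
      · rintro x y ⟨g, hgx⟩
        refine ⟨g, ?_⟩
        have h1 : g • y = x := hgx
        change g • y.swap = x.swap
        rw [← h1]
        rfl
      · intro q
        induction q using Quotient.inductionOn with
        | h x => exact ⟨Quotient.mk _ x.swap, by simp [Quotient.map_mk]⟩

/-- Representatives of the orbits of a subgroup of finite index. -/
private theorem reps {X : Type*} [MulAction Γ X] (Γ0 : Subgroup Γ) (x : X) :
    ∃ (q : MulAction.orbitRel.Quotient Γ X) (j : Γ ⧸ Γ0), ∃ h ∈ Γ0,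
      h • ((Quotient.out j)⁻¹ • (Quotient.out q : X)) = x := by
  obtain ⟨γ, hγ⟩ := exists_out (Γ := Γ) x
  obtain ⟨h, hh⟩ := QuotientGroup.mk_out_eq_mul Γ0 γ⁻¹
  refine ⟨Quotient.mk (MulAction.orbitRel Γ X) x, (QuotientGroup.mk γ⁻¹ : Γ ⧸ Γ0), (h : Γ), h.2, ?_⟩
  rw [hh, ← mul_smul]
  have e : (h : Γ) * (γ⁻¹ * (h : Γ))⁻¹ = γ := by group
  rw [e]
  exact hγ

/-- The action on the second factor. -/
private theorem adj2 [Nonempty X1] (hg : Geometric Γ (X1 × X2) (G1 □ G2)) (g : Γ) (b c : X2) :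
    G2.Adj (g • b) (g • c) ↔ G2.Adj b c := by
  obtain ⟨a⟩ := (inferInstance : Nonempty X1)
  have h1 := hg.adj g (a, b) (a, c)
  rw [SimpleGraph.boxProd_adj_right] at h1
  rw [← h1]
  exact (SimpleGraph.boxProd_adj_right (G := G1) (H := G2) (a := g • a)).symm

/-- The automorphism acting on the second factor only. -/
private def zt [Nonempty X1] (hg : Geometric Γ (X1 × X2) (G1 □ G2)) (t : Γ) :
    (G1 □ G2) ≃g (G1 □ G2) where
  toEquiv := Equiv.prodCongr (Equiv.refl X1) (MulAction.toPerm t)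
  map_rel_iff' := by
    intro x y
    simp only [Equiv.prodCongr_apply, Equiv.coe_refl, SimpleGraph.boxProd_adj, Prod.map_fst,
      Prod.map_snd, id_eq, MulAction.toPerm_apply, adj2 hg, smul_left_cancel_iff]

private theorem zt_apply [Nonempty X1] (hg : Geometric Γ (X1 × X2) (G1 □ G2)) (t : Γ)
    (x : X1 × X2) : zt hg t x = (x.1, t • x.2) := rfl

private theorem zt_pow [Nonempty X1] (hg : Geometric Γ (X1 × X2) (G1 □ G2)) (t : Γ) (n : ℕ)
    (x : X1 × X2) : (zt hg t ^ n) x = (x.1, t ^ n • x.2) := by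
  induction n with
  | zero => simp
  | succ n ih =>
    rw [pow_succ', pow_succ', mul_smul]
    change zt hg t ((zt hg t ^ n) x) = _
    rw [ih, zt_apply]

private theorem zt_bdd [Nonempty X1] (hc : (G1 □ G2).Connected)
    (hg : Geometric Γ (X1 × X2) (G1 □ G2)) (Γ0 : Subgroup Γ)
    (h0 : Γ0.FiniteIndex) (hab : ∀ f ∈ Γ0, ∀ g ∈ Γ0, ∀ b : X2, (f * g * f⁻¹ * g⁻¹) • b = b)
    (t : Γ) (ht : t ∈ Γ0) : BddAut (G1 □ G2) (zt hg t) := by
  have := hg.cof
  obtain ⟨D, hD⟩ := (Set.finite_range fun p : MulAction.orbitRel.Quotient Γ (X1 × X2) × (Γ ⧸ Γ0) =>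
    (G1 □ G2).dist ((Quotient.out p.2)⁻¹ • (Quotient.out p.1 : X1 × X2))
      (zt hg t ((Quotient.out p.2)⁻¹ • (Quotient.out p.1 : X1 × X2)))).bddAbove
  refine ⟨D, fun x => ?_⟩
  obtain ⟨q, j, h, hh, rfl⟩ := reps Γ0 x
  refine le_trans (le_of_eq ?_) (hD ⟨(q, j), rfl⟩)
  set s := (Quotient.out j)⁻¹ • (Quotient.out q : X1 × X2) with hs
  have e : zt hg t (h • s) = h • zt hg t s := by
    rw [zt_apply, zt_apply]
    refine Prod.ext rfl ?_
    change t • h • s.2 = h • t • s.2
    have h1 := hab t ht h hh (h • t • s.2)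
    rw [← h1]
    simp only [← mul_smul]
    congr 1
    group
  rw [e]
  exact hg.dist_smul hc h _ _

theorem fin_box (hG : Good Γ) (hM : Model Γ (X1 × X2) (G1 □ G2)) (Γ0 : Subgroup Γ)
    (h0 : Γ0.FiniteIndex) (hab : ∀ f ∈ Γ0, ∀ g ∈ Γ0, ∀ b : X2, (f * g * f⁻¹ * g⁻¹) • b = b) :
    Finite X2 := by
  obtain ⟨hc, hlf, hg⟩ := hM
  have hne : Nonempty X1 := (nonempty_prod.1 hc.nonempty).1
  have a : X1 := Classical.arbitrary X1
  have : (G1 □ G2).LocallyFinite := fun x => (hlf x).fintype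
  have hcof := hg.cof
  obtain ⟨Δ, hΔ⟩ := hg.degree
  have hl : (Δ : ℝ) < (Δ : ℝ) + 2 := by linarith
  have hl1 : (1 : ℝ) < (Δ : ℝ) + 2 := by
    have : (0 : ℝ) ≤ Δ := Nat.cast_nonneg Δ
    linarith
  have hfg : Group.FG Γ := hg.fg hc
  have hfg0 : Group.FG Γ0 := Subgroup.fg_of_index_ne_zero Γ0
  -- every element of `Γ0` has a power fixing a given point
  have htor : ∀ t ∈ Γ0, ∀ b : X2, ∃ n : ℕ, n ≠ 0 ∧ t ^ n • b = b := by
    intro t ht b
    obtain ⟨n, hn, h⟩ := orb_bdd hg hc hG hΔ hl hl1 (zt hg t) (zt_bdd hc hg Γ0 h0 hab t ht) (a, b)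
    rw [zt_pow] at h
    exact ⟨n, hn, congrArg Prod.snd h⟩
  -- orbits are finite
  have horb : ∀ b : X2, (MulAction.orbit Γ0 b).Finite := by
    intro b
    set S := MulAction.stabilizer Γ0 b with hS
    have hle : commutator Γ0 ≤ S := by
      rw [commutator_def, Subgroup.commutator_le]
      intro f _ g _
      have h1 := hab f f.2 g g.2 b
      exact h1
    have hN : S.Normal := Subgroup.Normal.of_commutator_le _ hle
    have hcm : IsMulCommutative (Γ0 ⧸ S) :=
      Subgroup.Normal.quotient_commutative_iff_commutator_le.2 hle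
    have hfgq : Group.FG (Γ0 ⧸ S) := QuotientGroup.fg S
    let _ : CommGroup (Γ0 ⧸ S) :=
      { (inferInstance : Group (Γ0 ⧸ S)) with
        mul_comm := hcm.is_comm.comm }
    have hfin : Finite (Γ0 ⧸ S) := by
      refine CommGroup.finite_of_fg_isMulTorsion (Γ0 ⧸ S) fun g => ?_
      induction g using QuotientGroup.induction_on with
      | H g =>
        obtain ⟨n, hn, h⟩ := htor g g.2 b
        refine isOfFinOrder_iff_pow_eq_one.2 ⟨n, Nat.pos_of_ne_zero hn, ?_⟩
        rw [← QuotientGroup.mk_pow, QuotientGroup.eq_one_iff]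
        exact h
    have e := MulAction.orbitEquivQuotientStabilizer Γ0 b
    have hfo : Finite (MulAction.orbit Γ0 b) := Finite.of_equiv _ e.symm
    exact hfo
  have hall : (Set.univ : Set X2) ⊆
      ⋃ p : MulAction.orbitRel.Quotient Γ (X1 × X2) × (Γ ⧸ Γ0),
        MulAction.orbit Γ0 ((Quotient.out p.2)⁻¹ • (Quotient.out p.1 : X1 × X2)).2 := by
    intro b _
    obtain ⟨q, j, h, hh, e⟩ := reps (X := X1 × X2) Γ0 (a, b)
    refine Set.mem_iUnion.2 ⟨(q, j), ⟨⟨h, hh⟩, ?_⟩⟩
    exact congrArg Prod.snd e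
  have := (Set.finite_iUnion fun p : MulAction.orbitRel.Quotient Γ (X1 × X2) × (Γ ⧸ Γ0) =>
    horb ((Quotient.out p.2)⁻¹ • (Quotient.out p.1 : X1 × X2)).2).subset hall
  exact Set.finite_univ_iff.1 this

end Pool.Agent.Lib.MP_3e27e0_al.PR
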