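import Pool.Agent.Lib.MP_3e27e0_al.CM.Stmt

/-!
# MP_3e27e0_al, project PR (F is no uniform lattice in a product): definitions (helper45)

`Prp Γ y C`: what is used about the group `Γ` (a subgroup of finite index of F); `y` is a power of `x0`,
`C` the subgroup of the elements which are the identity near 0 and near 1.
-/

set_option autoImplicit false

namespace Pool.Agent.Lib.MP_3e27e0_al.PR

open Pool.Agent.Lib.MP_3e27e0_al.CM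

structure Prp (Γ : Type*) [Group Γ] (y : Γ) (C : Subgroup Γ) : Prop where
  /-- The centraliser of `y` is virtually `⟨y⟩`. -/
  cent : ∃ R : Set Γ, R.Finite ∧ ∀ g, g * y = y * g → ∃ q : ℤ, ∃ r ∈ R, g = y ^ q * r
  /-- The powers of `y` displace the elements of `C`. -/
  disp : ∀ g ∈ C, ∀ h ∈ C, ∃ m0 : ℕ, ∀ m, m0 ≤ m → (y ^ m * h * (y ^ m)⁻¹) * g =
    g * (y ^ m * h * (y ^ m)⁻¹)
  /-- Modulo a normal subgroup with all commutators of elements of `C` the group is virtually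
  abelian. -/
  ab : ∀ K : Subgroup Γ, K.Normal → (∀ g ∈ C, ∀ h ∈ C, g * h * g⁻¹ * h⁻¹ ∈ K) →
    ∃ Γ0 : Subgroup Γ, Γ0.FiniteIndex ∧ ∀ f ∈ Γ0, ∀ g ∈ Γ0, f * g * f⁻¹ * g⁻¹ ∈ K

/-- Near 0 the map is the identity, and near 1. -/
def Cpt (f : UI ≃o UI) : Prop :=
  ∃ e : ℝ, 0 < e ∧ ∀ t : UI, (t : ℝ) ≤ e ∨ 1 - e ≤ (t : ℝ) → f t = t

/-- The elements used: `x` is `x0`, `u` and `v` have support `(0, 1/2)` and `(1/2, 1)` and generate the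
germs at 0 and at 1. -/
structure Elem (x u v : UI ≃o UI) : Prop where
  xT : IsT x
  uT : IsT u
  vT : IsT v
  lt : ∀ t : UI, 0 < (t : ℝ) → (t : ℝ) < 1 → x t < t
  x0 : ∀ t : UI, (t : ℝ) ≤ 1 / 2 → (x t : ℝ) = t / 2
  x1 : ∀ t : UI, 3 / 4 ≤ (t : ℝ) → 1 - (x t : ℝ) = 2 * (1 - t)
  u0 : ∀ t : UI, (t : ℝ) ≤ 1 / 4 → (u t : ℝ) = t / 2
  u1 : ∀ t : UI, 1 / 2 ≤ (t : ℝ) → u t = t
  v0 : ∀ t : UI, (t : ℝ) ≤ 1 / 2 → v t = t
  v1 : ∀ t : UI, 7 / 8 ≤ (t : ℝ) → 1 - (v t : ℝ) = 2 * (1 - t)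

end Pool.Agent.Lib.MP_3e27e0_al.PR
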