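import Pool.Agent.Lib.MP_3e27e0_al.PR.Germ

/-!
# Project PR: disjoint supports

`comm_disj`: one map is the identity on `[0, a]`, the other one on `[a, 1]`. `disp_x`: `h` is the identity
on `[1 - e, 1]`, so `x^m h x^-m` is the identity on `[x^m (1 - e), 1]`, and `g` is the identity on `[0, e']`
with `x^m (1 - e) ≤ e'` for large `m` (`small`).
-/

set_option autoImplicit false

namespace Pool.Agent.Lib.MP_3e27e0_al.PR

open Pool.Agent.Lib.MP_3e27e0_al.CM

theorem comm_disj {f g : UI ≃o UI} (a : UI) (hf : ∀ t, a ≤ t → f t = t) (hg : ∀ t, t ≤ a → g t = t) :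
    f * g = g * f := by
  refine OrderIso.ext (funext fun t => ?_)
  change f (g t) = g (f t)
  rcases le_total t a with h | h
  · have h1 : f t ≤ a := by
      have := f.monotone h
      rwa [hf a le_rfl] at this
    rw [hg t h, hg (f t) h1]
  · have h1 : a ≤ g t := by
      have := g.monotone h
      rwa [hg a le_rfl] at this
    rw [hf t h, hf (g t) h1]

theorem disp_x {x u v : UI ≃o UI} (hE : Elem x u v) {g h : UI ≃o UI} (hg : Cpt g) (hh : Cpt h) :
    ∃ m0 : ℕ, ∀ m, m0 ≤ m → (x ^ m * h * (x ^ m)⁻¹) * g = g * (x ^ m * h * (x ^ m)⁻¹) := by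
  obtain ⟨e, he, hg'⟩ := hg
  obtain ⟨d, hd, hh'⟩ := hh
  have hb0 : 0 ≤ max 0 (1 - d) := le_max_left _ _
  have hb1 : max 0 (1 - d) < 1 := max_lt one_pos (by linarith)
  obtain ⟨n0, hn0⟩ := small hE ⟨max 0 (1 - d), hb0, hb1.le⟩ hb1 e he
  refine ⟨n0, fun m hm => ?_⟩
  refine comm_disj ((x ^ m) ⟨max 0 (1 - d), hb0, hb1.le⟩) (fun t ht => ?_) (fun t ht => ?_)
  · have h1 : (⟨max 0 (1 - d), hb0, hb1.le⟩ : UI) ≤ (x ^ m)⁻¹ t := by
      change _ ≤ (x ^ m).symm t
      rw [OrderIso.le_symm_apply]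
      exact ht
    have h2 : h ((x ^ m)⁻¹ t) = (x ^ m)⁻¹ t :=
      hh' _ (Or.inr ((le_max_right _ _).trans h1))
    change (x ^ m) (h ((x ^ m)⁻¹ t)) = t
    rw [h2]
    exact (x ^ m).apply_symm_apply t
  · exact hg' t (Or.inl (le_trans ht (hn0 m hm)))

end Pool.Agent.Lib.MP_3e27e0_al.PR
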