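import Pool.Agent.Lib.MP_3e27e0_al.PR.Def

/-!
# Project PR: the elements x0, u, v of Thompson's group

`x = bump 0 1`, `u = bump 0 (1/2)`, `v = bump (1/2) (1/2)` with the (private) `bump` of `CM/ThompC.lean`
(copy what is needed of that file).
-/

set_option autoImplicit false

namespace Pool.Agent.Lib.MP_3e27e0_al.PR

open Pool.Agent.Lib.MP_3e27e0_al.CM

private noncomputable def xf (c r t : ℝ) : ℝ :=
  min t (max (c + (t - c) / 2) (max (t - r / 4) (2 * t - c - r)))

private noncomputable def yf (c r s : ℝ) : ℝ :=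
  max s (min (2 * s - c) (min (s + r / 4) ((s + c + r) / 2)))

private theorem xf_mono (c r : ℝ) : StrictMono (xf c r) := by
  intro s t h
  unfold xf
  refine min_lt_min h (max_lt_max ?_ (max_lt_max ?_ ?_)) <;> linarith

private theorem xf1 {c r t : ℝ} (h : t ≤ c) : xf c r t = t := by
  unfold xf
  exact min_eq_left (le_max_of_le_left (by linarith))

private theorem xf2 {c r t : ℝ} (h : c ≤ t) (h' : t ≤ c + r / 2) :
    xf c r t = c + (t - c) / 2 := by
  unfold xf
  have h1 : max (t - r / 4) (2 * t - c - r) ≤ c + (t - c) / 2 := max_le (by linarith) (by linarith)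
  rw [max_eq_left h1]
  exact min_eq_right (by linarith)

private theorem xf3 {c r t : ℝ} (hr : 0 < r) (h : c + r / 2 ≤ t) (h' : t ≤ c + 3 * r / 4) :
    xf c r t = t - r / 4 := by
  unfold xf
  have h1 : 2 * t - c - r ≤ t - r / 4 := by linarith
  have h2 : c + (t - c) / 2 ≤ t - r / 4 := by linarith
  rw [max_eq_left h1, max_eq_right h2]
  exact min_eq_right (by linarith)

private theorem xf4 {c r t : ℝ} (hr : 0 < r) (h : c + 3 * r / 4 ≤ t) (h' : t ≤ c + r) :
    xf c r t = 2 * t - c - r := by
  unfold xf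
  have h1 : t - r / 4 ≤ 2 * t - c - r := by linarith
  have h2 : c + (t - c) / 2 ≤ 2 * t - c - r := by linarith
  rw [max_eq_right h1, max_eq_right h2]
  exact min_eq_right (by linarith)

private theorem xf5 {c r t : ℝ} (h : c + r ≤ t) : xf c r t = t := by
  unfold xf
  exact min_eq_left (le_max_of_le_right (le_max_of_le_right (by linarith)))

private theorem xf_yf {c r : ℝ} (hr : 0 < r) (s : ℝ) : xf c r (yf c r s) = s := by
  rcases le_total s c with h1 | h1
  · have : yf c r s = s := by
      unfold yf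
      exact max_eq_left (min_le_of_left_le (by linarith))
    rw [this, xf1 h1]
  rcases le_total s (c + r / 4) with h2 | h2
  · have : yf c r s = 2 * s - c := by
      unfold yf
      rw [min_eq_left (le_min (by linarith) (by linarith))]
      exact max_eq_right (by linarith)
    rw [this, xf2 (by linarith) (by linarith)]
    ring
  rcases le_total s (c + r / 2) with h3 | h3
  · have : yf c r s = s + r / 4 := by
      unfold yf
      rw [min_eq_left (by linarith : s + r / 4 ≤ (s + c + r) / 2),
        min_eq_right (by linarith : s + r / 4 ≤ 2 * s - c)]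
      exact max_eq_right (by linarith)
    rw [this, xf3 hr (by linarith) (by linarith)]
    ring
  rcases le_total s (c + r) with h4 | h4
  · have : yf c r s = (s + c + r) / 2 := by
      unfold yf
      rw [min_eq_right (by linarith : (s + c + r) / 2 ≤ s + r / 4),
        min_eq_right (by linarith : (s + c + r) / 2 ≤ 2 * s - c)]
      exact max_eq_right (by linarith)
    rw [this, xf4 hr (by linarith) (by linarith)]
    ring
  · have : yf c r s = s := by
      unfold yf
      exact max_eq_left (min_le_of_right_le (min_le_of_right_le (by linarith)))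
    rw [this, xf5 h4]

private theorem xf_mem {c r : ℝ} (hc : 0 ≤ c) (t : UI) : xf c r t ∈ Set.Icc (0 : ℝ) 1 := by
  obtain ⟨t, h0, h1⟩ := t
  refine ⟨le_min h0 (le_max_of_le_left ?_), (min_le_left _ _).trans h1⟩
  simp only
  linarith

private theorem yf_mem {c r : ℝ} (hcr : c + r ≤ 1) (t : UI) : yf c r t ∈ Set.Icc (0 : ℝ) 1 := by
  obtain ⟨t, h0, h1⟩ := t
  refine ⟨h0.trans (le_max_left _ _), max_le h1 (min_le_of_right_le (min_le_of_right_le ?_))⟩
  simp only
  linarith

private noncomputable def bump (c r : ℝ) (hc : 0 ≤ c) (hr : 0 < r) (hcr : c + r ≤ 1) : UI ≃o UI :=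
  StrictMono.orderIsoOfRightInverse (fun t : UI => (⟨xf c r t, xf_mem hc t⟩ : UI))
    (fun _ _ h => Subtype.mk_lt_mk.2 (xf_mono c r h)) (fun t : UI => (⟨yf c r t, yf_mem hcr t⟩ : UI))
    (fun s => Subtype.ext (xf_yf hr s))

private theorem bump_apply {c r : ℝ} (hc : 0 ≤ c) (hr : 0 < r) (hcr : c + r ≤ 1) (t : UI) :
    (bump c r hc hr hcr t : ℝ) = xf c r t := rfl

private theorem bump_isT {c r : ℝ} (hc : 0 ≤ c) (hr : 0 < r) (hcr : c + r ≤ 1) (k : ℕ) (j : ℤ)
    (hc' : c = j / 2 ^ k) (hr' : r = 1 / 2 ^ k) : IsT (bump c r hc hr hcr) := by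
  classical
  have h2 : (2 : ℝ) ^ k ≠ 0 := by positivity
  refine ⟨{c, c + r / 2, c + 3 * r / 4, c + r}, ?_, ?_⟩
  · intro x hx
    simp only [Finset.mem_insert, Finset.mem_singleton] at hx
    rcases hx with rfl | rfl | rfl | rfl
    · exact ⟨j, k, hc'⟩
    · refine ⟨2 * j + 1, k + 1, ?_⟩
      rw [hc', hr', pow_succ]
      push_cast
      field_simp
    · refine ⟨4 * j + 3, k + 2, ?_⟩
      rw [hc', hr', pow_add]
      push_cast
      field_simp
      ring
    · refine ⟨j + 1, k, ?_⟩
      rw [hc', hr']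
      push_cast
      field_simp
  · intro a b hab hs
    have hab' : (a : ℝ) < b := hab
    have s1 := hs c (by simp)
    have s2 := hs (c + r / 2) (by simp)
    have s3 := hs (c + 3 * r / 4) (by simp)
    have s4 := hs (c + r) (by simp)
    simp only [bump_apply]
    rcases le_or_gt (b : ℝ) c with h1 | h1
    · refine ⟨0, fun t h0 h0' => ?_⟩
      have h0 : (a : ℝ) ≤ t := h0
      have h0' : (t : ℝ) ≤ b := h0'
      rw [xf1 (by linarith), xf1 (by linarith)]
      simp
    have a1 : c ≤ a := s1.resolve_right (not_le.2 h1)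
    rcases le_or_gt (b : ℝ) (c + r / 2) with h2 | h2
    · refine ⟨-1, fun t h0 h0' => ?_⟩
      have h0 : (a : ℝ) ≤ t := h0
      have h0' : (t : ℝ) ≤ b := h0'
      rw [xf2 (by linarith) (by linarith), xf2 (by linarith) (by linarith), zpow_neg_one]
      ring
    have a2 : c + r / 2 ≤ a := s2.resolve_right (not_le.2 h2)
    rcases le_or_gt (b : ℝ) (c + 3 * r / 4) with h3 | h3
    · refine ⟨0, fun t h0 h0' => ?_⟩
      have h0 : (a : ℝ) ≤ t := h0
      have h0' : (t : ℝ) ≤ b := h0'
      rw [xf3 hr (by linarith) (by linarith), xf3 hr (by linarith) (by linarith)]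
      simp
    have a3 : c + 3 * r / 4 ≤ a := s3.resolve_right (not_le.2 h3)
    rcases le_or_gt (b : ℝ) (c + r) with h4 | h4
    · refine ⟨1, fun t h0 h0' => ?_⟩
      have h0 : (a : ℝ) ≤ t := h0
      have h0' : (t : ℝ) ≤ b := h0'
      rw [xf4 hr (by linarith) (by linarith), xf4 hr (by linarith) (by linarith), zpow_one]
      ring
    have a4 : c + r ≤ a := s4.resolve_right (not_le.2 h4)
    refine ⟨0, fun t h0 h0' => ?_⟩
    have h0 : (a : ℝ) ≤ t := h0
    have h0' : (t : ℝ) ≤ b := h0'
    rw [xf5 (by linarith), xf5 (by linarith)]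
    simp

private theorem xf_lt {c r t : ℝ} (hr : 0 < r) (h : c < t) (h' : t < c + r) : xf c r t < t := by
  unfold xf
  refine min_lt_of_right_lt (max_lt ?_ (max_lt ?_ ?_)) <;> linarith

theorem exists_elem : ∃ x u v : UI ≃o UI, Elem x u v := by
  refine ⟨bump 0 1 le_rfl one_pos (by norm_num),
    bump 0 (1 / 2) le_rfl (by norm_num) (by norm_num),
    bump (1 / 2) (1 / 2) (by norm_num) (by norm_num) (by norm_num), ?_⟩
  refine ⟨?_, ?_, ?_, ?_, ?_, ?_, ?_, ?_, ?_, ?_⟩
  · exact bump_isT _ _ _ 0 0 (by norm_num) (by norm_num)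
  · exact bump_isT _ _ _ 1 0 (by norm_num) (by norm_num)
  · exact bump_isT _ _ _ 1 1 (by norm_num) (by norm_num)
  · intro t h0 h1
    rw [← Subtype.coe_lt_coe, bump_apply]
    exact xf_lt one_pos h0 (by linarith)
  · intro t ht
    rw [bump_apply, xf2 t.2.1 (by linarith)]
    ring
  · intro t ht
    rw [bump_apply, xf4 one_pos (by linarith) (by linarith [t.2.2])]
    ring
  · intro t ht
    rw [bump_apply, xf2 t.2.1 (by linarith)]
    ring
  · intro t ht
    apply Subtype.ext
    rw [bump_apply]
    exact xf5 (by linarith)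
  · intro t ht
    apply Subtype.ext
    rw [bump_apply]
    exact xf1 ht
  · intro t ht
    rw [bump_apply, xf4 (by norm_num) (by linarith) (by linarith [t.2.2])]
    ring

end Pool.Agent.Lib.MP_3e27e0_al.PR
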