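import Pool.Agent.Lib.MP_3e27e0_al.PR.Def
import Pool.Agent.Lib.MP_3e27e0_al.CM.Main

/-!
# Project PR: the element y has finite orbits on one of the factors
-/

set_option autoImplicit false

namespace Pool.Agent.Lib.MP_3e27e0_al.PR

open Pool.Agent.Lib.MP_3e27e0_al.CM

variable {X1 X2 Γ : Type*} {G1 : SimpleGraph X1} {G2 : SimpleGraph X2} [Group Γ] [MulAction Γ X1]
  [MulAction Γ X2] {y : Γ} {C : Subgroup Γ}

private theorem zpow_fix {X : Type*} [MulAction Γ X] {p : X}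
    (h : ∀ n : ℕ, n ≠ 0 → (y ^ n) • p ≠ p) {q q' : ℤ} {t : X} (h1 : (y ^ q) • t = p)
    (h2 : (y ^ q') • t = p) : q = q' := by
  have key : ∀ q q' : ℤ, q ≤ q' → (y ^ q) • t = p → (y ^ q') • t = p → q = q' := by
    intro q q' hqq h1 h2
    by_contra hne
    refine h (q' - q).toNat (by omega) ?_
    have e : ((q' - q).toNat : ℤ) = q' - q := by omega
    rw [← zpow_natCast, e, ← h1, ← mul_smul, ← zpow_add, sub_add_cancel, h2, h1]
  rcases le_total q q' with h3 | h3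
  · exact key q q' h3 h1 h2
  · exact (key q' q h3 h2 h1).symm

/-- `adj1`, `adj2`, properness and cocompactness of the diagonal action. -/
theorem ell (hP : Prp Γ y C) [G1.LocallyFinite] [G2.LocallyFinite] (hc1 : G1.Connected)
    (hc2 : G2.Connected)
    (adj1 : ∀ (g : Γ) (a b : X1), G1.Adj (g • a) (g • b) ↔ G1.Adj a b)
    (adj2 : ∀ (g : Γ) (a b : X2), G2.Adj (g • a) (g • b) ↔ G2.Adj a b)
    (hfin : ∀ (a : X1) (b : X2), {g : Γ | g • a = a ∧ g • b = b}.Finite)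
    (hcof : ∃ S : Set (X1 × X2), S.Finite ∧ ∀ p : X1 × X2, ∃ g : Γ, ∃ s ∈ S,
      g • s.1 = p.1 ∧ g • s.2 = p.2) :
    (∀ p : X1, ∃ n : ℕ, n ≠ 0 ∧ (y ^ n) • p = p) ∨ (∀ p : X2, ∃ n : ℕ, n ≠ 0 ∧ (y ^ n) • p = p) := by
  by_contra hcon
  push Not at hcon
  obtain ⟨⟨x1, hx1⟩, ⟨x2, hx2⟩⟩ := hcon
  obtain ⟨S, hS, hcof⟩ := hcof
  obtain ⟨R, hR, hcent⟩ := hP.cent
  have d1 : ∀ (g : Γ) (a b : X1), G1.dist (g • a) (g • b) = G1.dist a b := fun g a b =>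
    dist_aut (⟨MulAction.toPerm g, fun {a b} => adj1 g a b⟩ : G1 ≃g G1) hc1 a b
  have d2 : ∀ (g : Γ) (a b : X2), G2.dist (g • a) (g • b) = G2.dist a b := fun g a b =>
    dist_aut (⟨MulAction.toPerm g, fun {a b} => adj2 g a b⟩ : G2 ≃g G2) hc2 a b
  -- the chosen elements
  have hex : ∀ n : ℕ, ∃ g : Γ, ∃ s ∈ S, g • s.1 = (y ^ n) • x1 ∧ g • s.2 = x2 := fun n =>
    hcof ((y ^ n) • x1, x2)
  choose f s hsS hf1 hf2 using hex
  -- infinitely many n with the same s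
  obtain ⟨s0, hs0, hinf0⟩ : ∃ s0 ∈ S, {n : ℕ | s n = s0}.Infinite := by
    by_contra hno
    push Not at hno
    have h1 : (⋃ s0 ∈ S, {n : ℕ | s n = s0}).Finite :=
      hS.biUnion fun s0 hs0 => hno s0 hs0
    refine Set.infinite_univ (h1.subset fun n _ => ?_)
    rw [Set.mem_iUnion₂]
    exact ⟨s n, hsS n, rfl⟩
  set N : Set ℕ := {n : ℕ | s n = s0} with hN
  -- the conjugates of y
  set B : Set Γ := {g : Γ | G1.dist s0.1 (g • s0.1) ≤ G1.dist x1 (y • x1) ∧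
    G2.dist s0.2 (g • s0.2) ≤ G2.dist x2 (y • x2)} with hB
  have hBfin : B.Finite := by
    have b1 := ball_finite (G := G1) hc1 s0.1 (G1.dist x1 (y • x1))
    have b2 := ball_finite (G := G2) hc2 s0.2 (G2.dist x2 (y • x2))
    have h3 : ((fun g : Γ => (g • s0.1, g • s0.2)) ⁻¹'
        ({a | G1.dist s0.1 a ≤ G1.dist x1 (y • x1)} ×ˢ
          {b | G2.dist s0.2 b ≤ G2.dist x2 (y • x2)})).Finite := by
      refine (b1.prod b2).preimage' fun ab _ => ?_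
      by_cases h : ∃ g0 : Γ, (g0 • s0.1, g0 • s0.2) = ab
      · obtain ⟨g0, hg0⟩ := h
        refine ((hfin s0.1 s0.2).image fun s => g0 * s).subset ?_
        intro g hg
        have h4 : (g • s0.1, g • s0.2) = ab := hg
        rw [← hg0, Prod.mk.injEq] at h4
        refine ⟨g0⁻¹ * g, ⟨?_, ?_⟩, by simp⟩
        · rw [mul_smul, h4.1, inv_smul_smul]
        · rw [mul_smul, h4.2, inv_smul_smul]
      · refine Set.finite_empty.subset ?_
        intro g hg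
        exact h ⟨g, hg⟩
    refine h3.subset ?_
    rintro g ⟨hg1, hg2⟩
    exact ⟨hg1, hg2⟩
  have hmem : ∀ n ∈ N, (f n)⁻¹ * y * f n ∈ B := by
    intro n hn
    have hn' : s n = s0 := hn
    have e1 := hf1 n
    have e2 := hf2 n
    rw [hn'] at e1 e2
    refine ⟨le_of_eq ?_, le_of_eq ?_⟩
    · rw [← d1 (f n) s0.1, ← mul_smul (f n), mul_assoc (f n)⁻¹, mul_inv_cancel_left, mul_smul y, e1,
        ← mul_smul y, ← pow_succ', pow_succ, mul_smul, d1]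
    · rw [← d2 (f n) s0.2, ← mul_smul (f n), mul_assoc (f n)⁻¹, mul_inv_cancel_left, mul_smul y, e2]
  obtain ⟨b0, hb0, hinf1⟩ : ∃ b0 ∈ B, {n : ℕ | n ∈ N ∧ (f n)⁻¹ * y * f n = b0}.Infinite := by
    by_contra hno
    push Not at hno
    have h1 : (⋃ b0 ∈ B, {n : ℕ | n ∈ N ∧ (f n)⁻¹ * y * f n = b0}).Finite :=
      hBfin.biUnion fun b0 hb0 => hno b0 hb0
    refine hinf0 (h1.subset fun n hn => ?_)
    rw [Set.mem_iUnion₂]
    exact ⟨_, hmem n hn, hn, rfl⟩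
  obtain ⟨m, hmN, hmb⟩ := hinf1.nonempty
  have hq : ∀ n : ℕ, ∃ q : ℤ, ∃ r : Γ, n ∈ N ∧ (f n)⁻¹ * y * f n = b0 →
      r ∈ R ∧ f n * (f m)⁻¹ = y ^ q * r := by
    intro n
    by_cases hn : n ∈ N ∧ (f n)⁻¹ * y * f n = b0
    · have hcomm : (f n * (f m)⁻¹) * y = y * (f n * (f m)⁻¹) := by
        have e1 : (f n)⁻¹ * y * f n = (f m)⁻¹ * y * f m := by rw [hn.2, hmb]
        calc (f n * (f m)⁻¹) * y = f n * ((f m)⁻¹ * y * f m) * (f m)⁻¹ := by group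
          _ = f n * ((f n)⁻¹ * y * f n) * (f m)⁻¹ := by rw [e1]
          _ = y * (f n * (f m)⁻¹) := by group
      obtain ⟨q, r, hr, hqr⟩ := hcent _ hcomm
      exact ⟨q, r, fun _ => ⟨hr, hqr⟩⟩
    · exact ⟨0, 1, fun h => absurd h hn⟩
  choose q r hqr using hq
  obtain ⟨r0, hr0, hinf2⟩ : ∃ r0 ∈ R,
      {n : ℕ | (n ∈ N ∧ (f n)⁻¹ * y * f n = b0) ∧ r n = r0}.Infinite := by
    by_contra hno
    push Not at hno
    have h1 : (⋃ r0 ∈ R, {n : ℕ | (n ∈ N ∧ (f n)⁻¹ * y * f n = b0) ∧ r n = r0}).Finite :=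
      hR.biUnion fun r0 hr0 => hno r0 hr0
    refine hinf1 (h1.subset fun n hn => ?_)
    rw [Set.mem_iUnion₂]
    exact ⟨_, (hqr n hn).1, hn, rfl⟩
  have hrep : ∀ n ∈ {n : ℕ | (n ∈ N ∧ (f n)⁻¹ * y * f n = b0) ∧ r n = r0},
      (y ^ q n) • ((r0 * f m) • s0.1) = (y ^ n) • x1 ∧ (y ^ q n) • ((r0 * f m) • s0.2) = x2 := by
    rintro n ⟨hn, hrn⟩
    have hs : s n = s0 := hn.1
    have e1 := hf1 n
    have e2 := hf2 n
    rw [hs] at e1 e2
    have e3 := (hqr n hn).2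
    rw [hrn] at e3
    have e4 : f n = y ^ q n * (r0 * f m) := by
      rw [← mul_assoc, ← e3, inv_mul_cancel_right]
    rw [e4, mul_smul] at e1 e2
    exact ⟨e1, e2⟩
  obtain ⟨n, hn, n', hn', hne⟩ := hinf2.nontrivial
  obtain ⟨a1, a2⟩ := hrep n hn
  obtain ⟨a1', a2'⟩ := hrep n' hn'
  have hqq : q n = q n' := zpow_fix hx2 a2 a2'
  rw [hqq, a1'] at a1
  have e5 : (-(n : ℤ)) = -(n' : ℤ) := by
    refine zpow_fix hx1 (t := (y ^ n) • x1) ?_ ?_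
    · rw [zpow_neg, zpow_natCast, inv_smul_smul]
    · rw [zpow_neg, zpow_natCast, ← a1, inv_smul_smul]
  exact hne (by omega)

end Pool.Agent.Lib.MP_3e27e0_al.PR
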