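import Pool.Agent.Lib.MP_3e27e0_al.PR.Def

/-!
# Project PR: commutators of displaced elements act trivially
-/

set_option autoImplicit false

namespace Pool.Agent.Lib.MP_3e27e0_al.PR

open Pool.Agent.Lib.MP_3e27e0_al.CM

variable {Γ : Type*} [Group Γ] {y : Γ} {C : Subgroup Γ}

private theorem comm_calc {g h gm hm : Γ} (h1 : gm * h = h * gm) (h2 : gm * hm = hm * gm)
    (h3 : hm * g = g * hm) :
    (g * gm⁻¹) * (h * hm⁻¹) * (g * gm⁻¹)⁻¹ * (h * hm⁻¹)⁻¹ = g * h * g⁻¹ * h⁻¹ := by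
  have e1 : gm⁻¹ * (h * hm⁻¹) * gm = h * hm⁻¹ := by
    have c1 : Commute gm h := h1
    have c2 : Commute gm hm := h2
    have c3 : Commute gm (h * hm⁻¹) := c1.mul_right c2.inv_right
    rw [mul_assoc, ← c3.eq, inv_mul_cancel_left]
  have e2 : hm⁻¹ * g⁻¹ = g⁻¹ * hm⁻¹ := by
    have c1 : Commute hm g := h3
    exact c1.inv_inv.eq
  calc (g * gm⁻¹) * (h * hm⁻¹) * (g * gm⁻¹)⁻¹ * (h * hm⁻¹)⁻¹
      = g * (gm⁻¹ * (h * hm⁻¹) * gm) * g⁻¹ * hm * h⁻¹ := by group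
    _ = g * (h * hm⁻¹) * g⁻¹ * hm * h⁻¹ := by rw [e1]
    _ = g * h * (hm⁻¹ * g⁻¹) * hm * h⁻¹ := by group
    _ = g * h * (g⁻¹ * hm⁻¹) * hm * h⁻¹ := by rw [e2]
    _ = g * h * g⁻¹ * h⁻¹ := by group

private theorem pow_fix {X : Type*} [MulAction Γ X] {p : X} {n : ℕ} (h : (y ^ n) • p = p) (k : ℕ) :
    (y ^ (n * k)) • p = p := by
  induction k with
  | zero => simp
  | succ k ih => rw [Nat.mul_succ, pow_add, mul_smul, h, ih]

private theorem comm_fix {X : Type*} [MulAction Γ X] {g w : Γ} {p : X} (h1 : w • p = p)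
    (h2 : w • (g⁻¹ • p) = g⁻¹ • p) : (g * (w * g * w⁻¹)⁻¹) • p = p := by
  have h3 : w⁻¹ • p = p := by rw [inv_smul_eq_iff, h1]
  have e : g * (w * g * w⁻¹)⁻¹ = g * w * g⁻¹ * w⁻¹ := by group
  rw [e, mul_smul, h3, mul_smul, mul_smul, h2, smul_inv_smul]

theorem ker_comm (hP : Prp Γ y C) {X : Type*} [MulAction Γ X]
    (hy : ∀ p : X, ∃ n : ℕ, n ≠ 0 ∧ (y ^ n) • p = p) (g : Γ) (hg : g ∈ C) (h : Γ) (hh : h ∈ C)
    (p : X) : (g * h * g⁻¹ * h⁻¹) • p = p := by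
  obtain ⟨m1, hm1⟩ := hP.disp h hh g hg
  obtain ⟨m2, hm2⟩ := hP.disp g hg h hh
  obtain ⟨n1, hn1, h1⟩ := hy p
  obtain ⟨n2, hn2, h2⟩ := hy (g⁻¹ • p)
  obtain ⟨n3, hn3, h3⟩ := hy (h⁻¹ • p)
  set M : ℕ := n1 * n2 * n3 * (m1 + m2 + 1) with hM
  have hMm : m1 + m2 + 1 ≤ M := by
    rw [hM]
    exact Nat.le_mul_of_pos_left _ (by positivity)
  have f1 : ∀ k, (y ^ (M * k)) • p = p := by
    intro k
    have e : M * k = n1 * (n2 * n3 * (m1 + m2 + 1) * k) := by rw [hM]; ring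
    rw [e]
    exact pow_fix h1 _
  have f2 : ∀ k, (y ^ (M * k)) • (g⁻¹ • p) = g⁻¹ • p := by
    intro k
    have e : M * k = n2 * (n1 * n3 * (m1 + m2 + 1) * k) := by rw [hM]; ring
    rw [e]
    exact pow_fix h2 _
  have f3 : ∀ k, (y ^ (M * k)) • (h⁻¹ • p) = h⁻¹ • p := by
    intro k
    have e : M * k = n3 * (n1 * n2 * (m1 + m2 + 1) * k) := by rw [hM]; ring
    rw [e]
    exact pow_fix h3 _
  have a1 := comm_fix (g := g) (f1 1) (f2 1)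
  have a2 := comm_fix (g := h) (f1 2) (f3 2)
  rw [mul_one] at a1
  set gm := y ^ M * g * (y ^ M)⁻¹ with hgm
  set hm := y ^ (M * 2) * h * (y ^ (M * 2))⁻¹ with hhm
  have c1 : gm * h = h * gm := hm1 M (by omega)
  have c3 : hm * g = g * hm := hm2 (M * 2) (by omega)
  have c2 : gm * hm = hm * gm := by
    have c4 : (y ^ M * h * (y ^ M)⁻¹) * g = g * (y ^ M * h * (y ^ M)⁻¹) := hm2 M (by omega)
    have e : hm = y ^ M * (y ^ M * h * (y ^ M)⁻¹) * (y ^ M)⁻¹ := by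
      rw [hhm, mul_two, pow_add]
      group
    rw [e, hgm]
    calc y ^ M * g * (y ^ M)⁻¹ * (y ^ M * (y ^ M * h * (y ^ M)⁻¹) * (y ^ M)⁻¹)
        = y ^ M * (g * (y ^ M * h * (y ^ M)⁻¹)) * (y ^ M)⁻¹ := by group
      _ = y ^ M * ((y ^ M * h * (y ^ M)⁻¹) * g) * (y ^ M)⁻¹ := by rw [c4]
      _ = y ^ M * (y ^ M * h * (y ^ M)⁻¹) * (y ^ M)⁻¹ * (y ^ M * g * (y ^ M)⁻¹) := by group
  rw [← comm_calc c1 c2 c3, mul_smul, mul_smul, mul_smul]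
  have a1' : (g * gm⁻¹)⁻¹ • p = p := by rw [inv_smul_eq_iff, a1]
  have a2' : (h * hm⁻¹)⁻¹ • p = p := by rw [inv_smul_eq_iff, a2]
  rw [a2', a1', a2, a1]

end Pool.Agent.Lib.MP_3e27e0_al.PR
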