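import Pool.Agent.Lib.MP_3e27e0_al.PR.PrpF
import Pool.Agent.Lib.MP_3e27e0_al.PR.Ker
import Pool.Agent.Lib.MP_3e27e0_al.PR.Ell
import Pool.Agent.Lib.MP_3e27e0_al.PR.Box

/-!
# Project PR: the theorem on products
-/

set_option autoImplicit false

namespace Pool.Agent.Lib.MP_3e27e0_al.PR

open Pool.Agent.Lib.MP_3e27e0_al.CM

open scoped SimpleGraph

variable {X1 X2 Γ : Type*} {G1 : SimpleGraph X1} {G2 : SimpleGraph X2} [Group Γ] [MulAction Γ X1]
  [MulAction Γ X2]

theorem lf_left {a : X1} {b : X2} (h : ((G1 □ G2).neighborSet (a, b)).Finite) :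
    (G1.neighborSet a).Finite := by
  have h1 : ((fun a' : X1 => (a', b)) ⁻¹' ((G1 □ G2).neighborSet (a, b))).Finite :=
    h.preimage fun _ _ _ _ h => congrArg Prod.fst h
  refine h1.subset fun a' ha' => ?_
  exact SimpleGraph.boxProd_adj_left.2 ha'

theorem lf_right {a : X1} {b : X2} (h : ((G1 □ G2).neighborSet (a, b)).Finite) :
    (G2.neighborSet b).Finite := by
  have h1 : ((fun b' : X2 => (a, b')) ⁻¹' ((G1 □ G2).neighborSet (a, b))).Finite :=
    h.preimage fun _ _ _ _ h => congrArg Prod.snd h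
  refine h1.subset fun b' hb' => ?_
  exact SimpleGraph.boxProd_adj_right.2 hb'

theorem no_prod (hG : Good Γ) {y : Γ} {C : Subgroup Γ} (hP : Prp Γ y C)
    (hM : Model Γ (X1 × X2) (G1 □ G2)) : Finite X1 ∨ Finite X2 := by
  obtain ⟨hc, hlf, hg⟩ := hM
  have hc1 : G1.Connected := hc.ofBoxProdLeft
  have hc2 : G2.Connected := hc.ofBoxProdRight
  obtain ⟨a0⟩ := hc1.nonempty
  obtain ⟨b0⟩ := hc2.nonempty
  have : G1.LocallyFinite := fun a => (lf_left (hlf (a, b0))).fintype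
  have : G2.LocallyFinite := fun b => (lf_right (hlf (a0, b))).fintype
  have adj1 : ∀ (g : Γ) (a b : X1), G1.Adj (g • a) (g • b) ↔ G1.Adj a b := by
    intro g a b
    have h1 := hg.adj g (a, b0) (b, b0)
    change (G1 □ G2).Adj (g • a, g • b0) (g • b, g • b0) ↔ (G1 □ G2).Adj (a, b0) (b, b0) at h1
    rwa [SimpleGraph.boxProd_adj_left, SimpleGraph.boxProd_adj_left] at h1
  have adj2 : ∀ (g : Γ) (a b : X2), G2.Adj (g • a) (g • b) ↔ G2.Adj a b := by
    intro g a b
    have h1 := hg.adj g (a0, a) (a0, b)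
    change (G1 □ G2).Adj (g • a0, g • a) (g • a0, g • b) ↔ (G1 □ G2).Adj (a0, a) (a0, b) at h1
    rwa [SimpleGraph.boxProd_adj_right, SimpleGraph.boxProd_adj_right] at h1
  have hfin : ∀ (a : X1) (b : X2), {g : Γ | g • a = a ∧ g • b = b}.Finite := by
    intro a b
    refine (hg.fin (a, b)).subset fun g hg' => ?_
    exact Prod.ext hg'.1 hg'.2
  have hcof : ∃ S : Set (X1 × X2), S.Finite ∧ ∀ p : X1 × X2, ∃ g : Γ, ∃ s ∈ S,
      g • s.1 = p.1 ∧ g • s.2 = p.2 := by
    have := hg.cof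
    refine ⟨Set.range fun q : MulAction.orbitRel.Quotient Γ (X1 × X2) => Quotient.out q,
      Set.finite_range _, fun p => ?_⟩
    obtain ⟨g, hg'⟩ := exists_out (Γ := Γ) p
    exact ⟨g, _, ⟨_, rfl⟩, congrArg Prod.fst hg', congrArg Prod.snd hg'⟩
  rcases ell hP hc1 hc2 adj1 adj2 hfin hcof with h | h
  · left
    obtain ⟨Γ0, h0, hab⟩ := hP.ab (MulAction.toPermHom Γ X1).ker inferInstance (by
      intro g hgC k hk
      rw [MonoidHom.mem_ker]
      ext p
      exact ker_comm hP h g hgC k hk p)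
    refine fin_box hG (Model.swap ⟨hc, hlf, hg⟩) Γ0 h0 fun f hf g hg' b => ?_
    have h1 := hab f hf g hg'
    rw [MonoidHom.mem_ker] at h1
    exact congrArg (fun e : Equiv.Perm X1 => e b) h1
  · right
    obtain ⟨Γ0, h0, hab⟩ := hP.ab (MulAction.toPermHom Γ X2).ker inferInstance (by
      intro g hgC k hk
      rw [MonoidHom.mem_ker]
      ext p
      exact ker_comm hP h g hgC k hk p)
    refine fin_box hG ⟨hc, hlf, hg⟩ Γ0 h0 fun f hf g hg' b => ?_
    have h1 := hab f hf g hg'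
    rw [MonoidHom.mem_ker] at h1
    exact congrArg (fun e : Equiv.Perm X2 => e b) h1

end Pool.Agent.Lib.MP_3e27e0_al.PR
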