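import Pool.Agent.Lib.MP_3e27e0_al.PR.Def

/-!
# Project PR: germs at 0 and 1, the centraliser of x0

`germ0`: take `e` below all positive points of the finite set of `IsT f` (and below 1); `a = 0`. `germ1`:
the same with `b = 1` (`f 1 = 1`). `small`: `x^n a` is decreasing; below 1/2 it is halved at every step;
above 1/2 the distance to 1 is at least multiplied ... (or: the limit would be a fixed point of the
continuous map `x` in `(0, 1)`). `cent_x`: if `g` commutes with `x^m`, `m ≥ 1`, with slope `2^k` at 0,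
then `g' = g x^k` commutes with `x^m` and is the identity near 0; for `t < 1` and large `n` the point
`x^(m n) t` is near 0, so `x^(m n) (g' t) = g' (x^(m n) t) = x^(m n) t`, `g' t = t`.
-/

set_option autoImplicit false

namespace Pool.Agent.Lib.MP_3e27e0_al.PR

open Pool.Agent.Lib.MP_3e27e0_al.CM

private theorem exists_gap (s : Finset ℝ) (c : ℝ) :
    ∃ e : ℝ, 0 < e ∧ e ≤ 1 ∧ ∀ x ∈ s, x ≤ c ∨ c + e ≤ x := by
  classical
  induction s using Finset.induction_on with
  | empty => exact ⟨1, one_pos, le_rfl, fun x hx => absurd hx (Finset.notMem_empty x)⟩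
  | insert y s _ ih =>
    obtain ⟨e, h0, h1, h⟩ := ih
    rcases le_or_gt y c with hy | hy
    · refine ⟨e, h0, h1, fun x hx => ?_⟩
      rcases Finset.mem_insert.1 hx with rfl | hx
      · exact Or.inl hy
      · exact h x hx
    · refine ⟨min e (y - c), lt_min h0 (by linarith), (min_le_left _ _).trans h1,
        fun x hx => ?_⟩
      rcases Finset.mem_insert.1 hx with rfl | hx
      · right
        linarith [min_le_right e (x - c)]
      · rcases h x hx with h2 | h2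
        · exact Or.inl h2
        · right
          linarith [min_le_left e (y - c)]

private theorem map_zero' (f : UI ≃o UI) : f 0 = 0 := map_bot f

private theorem map_one' (f : UI ≃o UI) : f 1 = 1 := map_top f

theorem germ0 {f : UI ≃o UI} (hf : IsT f) : ∃ e : ℝ, 0 < e ∧ ∃ k : ℤ, ∀ t : UI, (t : ℝ) ≤ e →
    (f t : ℝ) = (2 : ℝ) ^ k * t := by
  obtain ⟨s, -, h⟩ := hf
  obtain ⟨e, he0, he1, he⟩ := exists_gap s 0
  obtain ⟨k, hk⟩ := h 0 ⟨e, he0.le, he1⟩ (show (0 : ℝ) < e from he0) fun x hx => by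
    have := he x hx
    rw [zero_add] at this
    exact this
  refine ⟨e, he0, k, fun t ht => ?_⟩
  have h1 := hk t t.2.1 ht
  rw [map_zero'] at h1
  have h2 : ((0 : UI) : ℝ) = 0 := rfl
  rw [h2, sub_zero, sub_zero] at h1
  exact h1

theorem germ1 {f : UI ≃o UI} (hf : IsT f) : ∃ e : ℝ, 0 < e ∧ ∃ k : ℤ, ∀ t : UI, 1 - e ≤ (t : ℝ) →
    1 - (f t : ℝ) = (2 : ℝ) ^ k * (1 - t) := by
  classical
  obtain ⟨s, -, h⟩ := hf
  obtain ⟨e, he0, he1, he⟩ := exists_gap (s.image fun x => -x) (-1)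
  obtain ⟨k, hk⟩ := h ⟨1 - e, by linarith, by linarith⟩ 1 (show 1 - e < (1 : ℝ) by linarith)
    fun x hx => by
      have h2 := he (-x) (Finset.mem_image_of_mem _ hx)
      rcases h2 with h2 | h2
      · right
        change (1 : ℝ) ≤ x
        linarith
      · left
        change x ≤ 1 - e
        linarith
  refine ⟨e, he0, k, fun t ht => ?_⟩
  have h1 := hk t ht t.2.2
  have h2 := hk 1 (show 1 - e ≤ (1 : ℝ) by linarith) le_rfl
  rw [map_one'] at h2
  have h3 : ((1 : UI) : ℝ) = 1 := rfl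
  rw [h3] at h2
  have h4 : 1 - (f t : ℝ) = (1 - (f ⟨1 - e, by linarith, by linarith⟩ : ℝ)) -
    ((f t : ℝ) - (f ⟨1 - e, by linarith, by linarith⟩ : ℝ)) := by ring
  rw [h4, h2, h1]
  ring

private theorem x_le {x u v : UI ≃o UI} (hE : Elem x u v) (t : UI) : x t ≤ t := by
  rcases eq_or_lt_of_le t.2.1 with h | h
  · have h1 : t = 0 := Subtype.ext h.symm
    rw [h1, map_zero']
  · rcases eq_or_lt_of_le t.2.2 with h' | h'
    · have h1 : t = 1 := Subtype.ext h'
      rw [h1, map_one']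
    · exact (hE.lt t h h').le

theorem small {x u v : UI ≃o UI} (hE : Elem x u v) (a : UI) (ha : (a : ℝ) < 1) (e : ℝ) (he : 0 < e) :
    ∃ n0 : ℕ, ∀ n, n0 ≤ n → (((x ^ n) a : UI) : ℝ) ≤ e := by
  have anti : Antitone fun n : ℕ => (((x ^ n) a : UI) : ℝ) := by
    refine antitone_nat_of_succ_le fun n => ?_
    change (((x ^ (n + 1)) a : UI) : ℝ) ≤ (((x ^ n) a : UI) : ℝ)
    rw [pow_succ', RelIso.mul_apply]
    exact x_le hE _
  have bdd : BddBelow (Set.range fun n : ℕ => (((x ^ n) a : UI) : ℝ)) :=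
    ⟨0, by rintro _ ⟨n, rfl⟩; exact ((x ^ n) a).2.1⟩
  set L : ℝ := ⨅ n : ℕ, (((x ^ n) a : UI) : ℝ) with hL
  have hL0 : 0 ≤ L := le_ciInf fun n => ((x ^ n) a).2.1
  have hLa : L ≤ a := by
    have := ciInf_le bdd 0
    simpa using this
  have hL1 : L < 1 := hLa.trans_lt ha
  rcases hL0.eq_or_lt with h0 | h0
  · obtain ⟨n0, hn0⟩ := exists_lt_of_ciInf_lt (show L < e by rw [← h0]; exact he)
    exact ⟨n0, fun n hn => (anti hn).trans hn0.le⟩
  · exfalso
    have hlt := hE.lt ⟨L, hL0, hL1.le⟩ h0 hL1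
    -- the point whose image is `L` is larger than `L`
    obtain ⟨w, hw⟩ := x.surjective ⟨L, hL0, hL1.le⟩
    have hwL : L < (w : ℝ) := by
      have h1 : x ⟨L, hL0, hL1.le⟩ < x w := by rw [hw]; exact hlt
      exact x.lt_iff_lt.1 h1
    obtain ⟨n, hn⟩ := exists_lt_of_ciInf_lt hwL
    have h2 : x ((x ^ n) a) < x w := x.lt_iff_lt.2 hn
    rw [hw, ← RelIso.mul_apply, ← pow_succ'] at h2
    have h3 : (((x ^ (n + 1)) a : UI) : ℝ) < L := h2
    exact absurd (ciInf_le bdd (n + 1)) (not_le.2 h3)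

theorem big {x u v : UI ≃o UI} (hE : Elem x u v) (a : UI) (ha : 0 < (a : ℝ)) (e : ℝ) (he : 0 < e) :
    ∃ n0 : ℕ, ∀ n, n0 ≤ n → 1 - e ≤ (((x⁻¹ ^ n) a : UI) : ℝ) := by
  rcases le_or_gt (1 - e) 0 with h | h
  · exact ⟨0, fun n _ => h.trans ((x⁻¹ ^ n) a).2.1⟩
  · obtain ⟨n0, hn0⟩ := small hE ⟨1 - e, h.le, by linarith⟩ (show 1 - e < 1 by linarith) a ha
    refine ⟨n0, fun n hn => ?_⟩
    have h1 : (x ^ n) ⟨1 - e, h.le, by linarith⟩ ≤ a := hn0 n hn
    have h2 : (x ^ n) ((x⁻¹ ^ n) a) = a := by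
      rw [inv_pow]
      exact RelIso.apply_inv_self _ a
    rw [← h2] at h1
    exact (x ^ n).le_iff_le.1 h1

private theorem pow_half {x u v : UI ≃o UI} (hE : Elem x u v) (n : ℕ) (t : UI)
    (ht : (t : ℝ) ≤ 1 / 2) : (((x ^ n) t : UI) : ℝ) = t / 2 ^ n := by
  induction n with
  | zero => simp
  | succ n ih =>
    have h1 : (((x ^ n) t : UI) : ℝ) ≤ 1 / 2 := by
      rw [ih]
      exact (div_le_self t.2.1 (one_le_pow₀ one_le_two)).trans ht
    rw [pow_succ', RelIso.mul_apply, hE.x0 _ h1, ih, pow_succ, div_div]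

private theorem zpow_half {x u v : UI ≃o UI} (hE : Elem x u v) (k : ℤ) :
    ∃ e : ℝ, 0 < e ∧ ∀ t : UI, (t : ℝ) ≤ e → (((x ^ k) t : UI) : ℝ) = (2 : ℝ) ^ (-k) * t := by
  obtain ⟨n, rfl | rfl⟩ := k.eq_nat_or_neg
  · refine ⟨1 / 2, by norm_num, fun t ht => ?_⟩
    rw [zpow_natCast, pow_half hE n t ht, zpow_neg, zpow_natCast, div_eq_inv_mul]
  · refine ⟨1 / 2 / 2 ^ n, by positivity, fun t ht => ?_⟩
    have h2 : (0 : ℝ) < 2 ^ n := by positivity
    have hs : (2 : ℝ) ^ n * t ≤ 1 / 2 := by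
      rw [le_div_iff₀ h2] at ht
      linarith
    have hs0 : 0 ≤ (2 : ℝ) ^ n * t := mul_nonneg h2.le t.2.1
    have h3 : (x ^ n) ⟨2 ^ n * t, hs0, by linarith⟩ = t := by
      apply Subtype.ext
      rw [pow_half hE n _ hs]
      change (2 : ℝ) ^ n * t / 2 ^ n = t
      field_simp
    have h4 : (x ^ (-(n : ℤ))) t = ⟨2 ^ n * t, hs0, by linarith⟩ := by
      conv_lhs => rw [← h3]
      rw [zpow_neg, zpow_natCast]
      exact RelIso.inv_apply_self _ _
    rw [h4, neg_neg, zpow_natCast]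

theorem cent_x {x u v : UI ≃o UI} (hE : Elem x u v) {g : UI ≃o UI} (hg : IsT g) {m : ℕ} (hm : m ≠ 0)
    (h : g * x ^ m = x ^ m * g) : ∃ k : ℤ, g = x ^ k := by
  obtain ⟨e, he, k, hk⟩ := germ0 hg
  obtain ⟨e', he', hk'⟩ := zpow_half hE k
  have h2 : (0 : ℝ) < (2 : ℝ) ^ k := by positivity
  have near : ∀ t : UI, (t : ℝ) ≤ min e (e' / 2 ^ k) → (x ^ k * g) t = t := by
    intro t ht
    have h3 := hk t (ht.trans (min_le_left _ _))
    have h4 : (g t : ℝ) ≤ e' := by
      rw [h3]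
      have := ht.trans (min_le_right _ _)
      rw [le_div_iff₀ h2] at this
      linarith
    apply Subtype.ext
    rw [RelIso.mul_apply, hk' _ h4, h3, ← mul_assoc, ← zpow_add₀ two_ne_zero, neg_add_cancel,
      zpow_zero, one_mul]
  have hcomm : Commute (x ^ k * g) (x ^ m) := by
    have h3 : Commute g (x ^ m) := h
    have h4 : Commute (x ^ k) (x ^ m) := (Commute.refl x).zpow_left k |>.pow_right m
    exact h4.mul_left h3
  have hone : x ^ k * g = 1 := by
    apply RelIso.ext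
    intro t
    change (x ^ k * g) t = t
    rcases eq_or_lt_of_le t.2.2 with ht | ht
    · have h1 : t = 1 := Subtype.ext ht
      rw [h1, map_one']
    · obtain ⟨n0, hn0⟩ := small hE t ht (min e (e' / 2 ^ k)) (lt_min he (by positivity))
      have h5 : n0 ≤ m * n0 := Nat.le_mul_of_pos_left n0 (Nat.pos_of_ne_zero hm)
      have h6 := near _ (hn0 (m * n0) h5)
      have h7 : Commute (x ^ k * g) (x ^ (m * n0)) := by
        rw [pow_mul]
        exact hcomm.pow_right n0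
      have h8 : (x ^ (m * n0)) ((x ^ k * g) t) = (x ^ k * g) ((x ^ (m * n0)) t) := by
        rw [← RelIso.mul_apply, ← RelIso.mul_apply, h7.eq]
      rw [h6] at h8
      exact (x ^ (m * n0)).injective h8
  refine ⟨-k, ?_⟩
  rw [zpow_neg]
  exact eq_inv_of_mul_eq_one_right hone

end Pool.Agent.Lib.MP_3e27e0_al.PR
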