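import Pool.Agent.Lib.MP_3e27e0_al.PR.Def
import Pool.Agent.Lib.MP_3e27e0_al.CM.Main

/-!
# Project PR: automorphisms of a Cartesian product preserve the factors up to finite index

`Sq G` is a relation between the ordered edges `(x, y)` of a graph which is invariant under
automorphisms and respects the type (horizontal / vertical) of the edges of a product. Every class of
the generated equivalence relation has an edge at every vertex, so there are finitely many classes.
-/

set_option autoImplicit false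

namespace Pool.Agent.Lib.MP_3e27e0_al.PR

open Pool.Agent.Lib.MP_3e27e0_al.CM

open scoped SimpleGraph

section Rel

variable {X : Type*}

/-- The relation: reversal, no square, triangle, opposite edges of a square. -/
inductive Sq (G : SimpleGraph X) : X × X → X × X → Prop
  | rev (x y : X) (h : G.Adj x y) : Sq G (x, y) (y, x)
  | tau (x y z : X) (h1 : G.Adj x y) (h2 : G.Adj x z) (h3 : y ≠ z)
      (h4 : ∀ w, G.Adj w y → G.Adj w z → w = x) : Sq G (x, y) (x, z)
  | tri (x y z : X) (h1 : G.Adj x y) (h2 : G.Adj x z) (h3 : G.Adj y z) : Sq G (x, y) (x, z)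
  | par (x y z w : X) (h1 : G.Adj x y) (h2 : G.Adj z w) (h3 : G.Adj x z) (h4 : G.Adj y w)
      (h5 : x ≠ w) (h6 : y ≠ z) : Sq G (x, y) (z, w)

theorem Sq.map {G : SimpleGraph X} (b : G ≃g G) {p q : X × X} (h : Sq G p q) :
    Sq G (b p.1, b p.2) (b q.1, b q.2) := by
  have ba : ∀ x y, G.Adj x y → G.Adj (b x) (b y) := fun x y h => b.map_adj_iff.2 h
  cases h with
  | rev x y h => exact Sq.rev _ _ (ba _ _ h)
  | tau x y z h1 h2 h3 h4 =>
    refine Sq.tau _ _ _ (ba _ _ h1) (ba _ _ h2) (fun h => h3 (b.injective h)) fun w hw1 hw2 => ?_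
    have e : b (b.symm w) = w := b.apply_symm_apply w
    rw [← e, b.map_adj_iff] at hw1 hw2
    rw [← e, h4 _ hw1 hw2]
  | tri x y z h1 h2 h3 => exact Sq.tri _ _ _ (ba _ _ h1) (ba _ _ h2) (ba _ _ h3)
  | par x y z w h1 h2 h3 h4 h5 h6 =>
    exact Sq.par _ _ _ _ (ba _ _ h1) (ba _ _ h2) (ba _ _ h3) (ba _ _ h4)
      (fun h => h5 (b.injective h)) (fun h => h6 (b.injective h))

theorem eqv_map {G : SimpleGraph X} (b : G ≃g G) {p q : X × X} (h : Relation.EqvGen (Sq G) p q) :
    Relation.EqvGen (Sq G) (b p.1, b p.2) (b q.1, b q.2) := by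
  induction h with
  | rel p q h => exact Relation.EqvGen.rel _ _ (h.map b)
  | refl p => exact Relation.EqvGen.refl _
  | symm p q _ ih => exact ih.symm
  | trans p q r _ _ ih1 ih2 => exact ih1.trans _ _ _ ih2

/-- Every class has an edge at every vertex. -/
theorem exists_at {G : SimpleGraph X} {x y z : X} (p : G.Walk x z) (h : G.Adj x y) :
    ∃ w, G.Adj z w ∧ Relation.EqvGen (Sq G) (x, y) (z, w) := by
  induction p generalizing y with
  | nil => exact ⟨y, h, Relation.EqvGen.refl _⟩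
  | @cons x z t hxz p ih =>
    have step : ∃ w, G.Adj z w ∧ Relation.EqvGen (Sq G) (x, y) (z, w) := by
      by_cases hyz : y = z
      · subst hyz
        exact ⟨x, h.symm, Relation.EqvGen.rel _ _ (Sq.rev _ _ h)⟩
      · by_cases hadj : G.Adj y z
        · refine ⟨x, hxz.symm, Relation.EqvGen.trans _ _ _ (Relation.EqvGen.rel _ _
            (Sq.tri x y z h hxz hadj)) (Relation.EqvGen.rel _ _ (Sq.rev _ _ hxz))⟩
        · by_cases hw : ∀ w, G.Adj w y → G.Adj w z → w = x
          · refine ⟨x, hxz.symm, Relation.EqvGen.trans _ _ _ (Relation.EqvGen.rel _ _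
              (Sq.tau x y z h hxz hyz hw)) (Relation.EqvGen.rel _ _ (Sq.rev _ _ hxz))⟩
          · push Not at hw
            obtain ⟨w, hw1, hw2, hw3⟩ := hw
            exact ⟨w, hw2.symm, Relation.EqvGen.rel _ _
              (Sq.par x y z w h hw2.symm hxz hw1.symm (Ne.symm hw3) hyz)⟩
    obtain ⟨w, hw, hxw⟩ := step
    obtain ⟨w', hw', hzw⟩ := ih hw
    exact ⟨w', hw', hxw.trans _ _ _ hzw⟩

/-- The automorphisms which preserve all classes. -/
def clsSub {Γ : Type*} [Group Γ] [MulAction Γ X] {G : SimpleGraph X} (hg : Geometric Γ X G) :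
    Subgroup Γ where
  carrier := {g | ∀ x y, G.Adj x y → Relation.EqvGen (Sq G) (g • x, g • y) (x, y)}
  one_mem' := by
    intro x y _
    rw [one_smul, one_smul]
    exact Relation.EqvGen.refl _
  mul_mem' := by
    intro a b ha hb x y hxy
    rw [mul_smul, mul_smul]
    exact (ha _ _ ((hg.adj b x y).2 hxy)).trans _ _ _ (hb x y hxy)
  inv_mem' := by
    intro a ha x y hxy
    have h1 := ha (a⁻¹ • x) (a⁻¹ • y) ((hg.adj a⁻¹ x y).2 hxy)
    rw [smul_inv_smul, smul_inv_smul] at h1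
    exact h1.symm

theorem clsSub_fin {Γ : Type*} [Group Γ] [MulAction Γ X] {G : SimpleGraph X} [G.LocallyFinite]
    (hg : Geometric Γ X G) (hc : G.Connected) : (clsSub hg).FiniteIndex := by
  obtain ⟨x0⟩ := hc.nonempty
  have key : ∀ x y, G.Adj x y → ∃ w : G.neighborSet x0,
      Relation.EqvGen (Sq G) (x, y) (x0, (w : X)) := by
    intro x y hxy
    obtain ⟨p⟩ := hc.preconnected x x0
    obtain ⟨w, hw, h⟩ := exists_at p hxy
    exact ⟨⟨w, hw⟩, h⟩
  have key2 : ∀ (g : Γ) (y : G.neighborSet x0), ∃ w : G.neighborSet x0,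
      Relation.EqvGen (Sq G) (g • x0, g • (y : X)) (x0, (w : X)) := fun g y =>
    key _ _ ((hg.adj g x0 y).2 y.2)
  choose Φ hΦ using key2
  have hinj : ∀ g h : Γ, Φ g = Φ h → h⁻¹ * g ∈ clsSub hg := by
    intro g h hgh x y hxy
    have e1 : ∀ y : G.neighborSet x0,
        Relation.EqvGen (Sq G) ((h⁻¹ * g) • x0, (h⁻¹ * g) • (y : X)) (x0, (y : X)) := by
      intro y
      have h1 := hΦ g y
      have h2 := hΦ h y
      rw [hgh] at h1
      have h3 := eqv_map (hg.aut h⁻¹) (h1.trans _ _ _ h2.symm)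
      simp only [hg.aut_apply, inv_smul_smul] at h3
      rw [mul_smul, mul_smul]
      exact h3
    obtain ⟨w, hw⟩ := key x y hxy
    have h4 := eqv_map (hg.aut (h⁻¹ * g)) hw
    simp only [hg.aut_apply] at h4
    exact (h4.trans _ _ _ (e1 w)).trans _ _ _ hw.symm
  have hfin : Finite (G.neighborSet x0 → G.neighborSet x0) := inferInstance
  have hF : Function.Injective fun q : Γ ⧸ clsSub hg => Φ (Quotient.out q) := by
    intro q q' hqq
    have h5 := QuotientGroup.eq.2 (hinj _ _ hqq)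
    rw [← Quotient.out_eq q, ← Quotient.out_eq q']
    exact h5.symm
  have := Finite.of_injective _ hF
  exact Subgroup.finiteIndex_of_finite_quotient

end Rel

section Prod

variable {X1 X2 : Type*} {G1 : SimpleGraph X1} {G2 : SimpleGraph X2}

/-- The type of an edge: `p.1 = p'.1` (vertical). -/
theorem Sq.type {p q : (X1 × X2) × (X1 × X2)} (h : Sq (G1 □ G2) p q) :
    p.1.1 = p.2.1 ↔ q.1.1 = q.2.1 := by
  cases h with
  | rev x y h => exact eq_comm
  | tau x y z h1 h2 h3 h4 =>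
    rw [SimpleGraph.boxProd_adj] at h1 h2
    constructor
    · intro e
      rcases h2 with ⟨h2, e2⟩ | ⟨h2, e2⟩
      · exfalso
        rcases h1 with ⟨h1, e1⟩ | ⟨h1, e1⟩
        · exact h1.ne e
        · have a1 : G1.Adj z.1 y.1 := by rw [← e]; exact h2.symm
          have a2 : G2.Adj y.2 z.2 := by rw [← e2]; exact h1.symm
          have h5 := h4 (z.1, y.2) (SimpleGraph.boxProd_adj.2 (Or.inl ⟨a1, rfl⟩))
            (SimpleGraph.boxProd_adj.2 (Or.inr ⟨a2, rfl⟩))
          have h6 := congrArg Prod.fst h5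
          exact h2.ne h6.symm
      · exact e2
    · intro e
      rcases h1 with ⟨h1, e1⟩ | ⟨h1, e1⟩
      · exfalso
        rcases h2 with ⟨h2, e2⟩ | ⟨h2, e2⟩
        · exact h2.ne e
        · have a1 : G1.Adj y.1 z.1 := by rw [← e]; exact h1.symm
          have a2 : G2.Adj z.2 y.2 := by rw [← e1]; exact h2.symm
          have h5 := h4 (y.1, z.2) (SimpleGraph.boxProd_adj.2 (Or.inr ⟨a2, rfl⟩))
            (SimpleGraph.boxProd_adj.2 (Or.inl ⟨a1, rfl⟩))
          have h6 := congrArg Prod.fst h5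
          exact h1.ne h6.symm
      · exact e1
  | tri x y z h1 h2 h3 =>
    rw [SimpleGraph.boxProd_adj] at h1 h2 h3
    rcases h1 with ⟨h1, e1⟩ | ⟨h1, e1⟩ <;> rcases h2 with ⟨h2, e2⟩ | ⟨h2, e2⟩
    · exact ⟨fun e => absurd e h1.ne, fun e => absurd e h2.ne⟩
    · exfalso
      rcases h3 with ⟨h3, e3⟩ | ⟨h3, e3⟩
      · exact h2.ne (e1.trans e3)
      · exact h1.ne (e2.trans e3.symm)
    · exfalso
      rcases h3 with ⟨h3, e3⟩ | ⟨h3, e3⟩
      · exact h1.ne (e2.trans e3.symm)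
      · exact h2.ne (e1.trans e3)
    · exact ⟨fun _ => e2, fun _ => e1⟩
  | par x y z w h1 h2 h3 h4 h5 h6 =>
    rw [SimpleGraph.boxProd_adj] at h1 h2 h3 h4
    rcases h1 with ⟨h1, e1⟩ | ⟨h1, e1⟩ <;> rcases h2 with ⟨h2, e2⟩ | ⟨h2, e2⟩
    · exact ⟨fun e => absurd e h1.ne, fun e => absurd e h2.ne⟩
    · exfalso
      rcases h3 with ⟨h3, e3⟩ | ⟨h3, e3⟩ <;> rcases h4 with ⟨h4, e4⟩ | ⟨h4, e4⟩
      · exact h2.ne (by rw [← e3, e1, e4])
      · exact h6 (Prod.ext (by rw [e4, ← e2]) (by rw [← e1, e3]))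
      · exact h5 (Prod.ext (by rw [e3, e2]) (by rw [e1, e4]))
      · exact h1.ne (by rw [e3, e2, ← e4])
    · exfalso
      rcases h3 with ⟨h3, e3⟩ | ⟨h3, e3⟩ <;> rcases h4 with ⟨h4, e4⟩ | ⟨h4, e4⟩
      · exact h1.ne (by rw [e3, e2, ← e4])
      · exact h5 (Prod.ext (by rw [e1, e4]) (by rw [e3, e2]))
      · exact h6 (Prod.ext (by rw [← e1, e3]) (by rw [e4, ← e2]))
      · exact h2.ne (by rw [← e3, e1, e4])
    · exact ⟨fun _ => e2, fun _ => e1⟩

theorem eqv_type {p q : (X1 × X2) × (X1 × X2)} (h : Relation.EqvGen (Sq (G1 □ G2)) p q) :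
    p.1.1 = p.2.1 ↔ q.1.1 = q.2.1 := by
  induction h with
  | rel p q h => exact h.type
  | refl p => exact Iff.rfl
  | symm p q _ ih => exact ih.symm
  | trans p q r _ _ ih1 ih2 => exact ih1.trans ih2

variable {Γ : Type*} [Group Γ] [MulAction Γ (X1 × X2)]

theorem cls_fst (hg : Geometric Γ (X1 × X2) (G1 □ G2)) (hc2 : G2.Connected) {g : Γ}
    (hgc : g ∈ clsSub hg) (a : X1) (b b' : X2) : (g • (a, b)).1 = (g • (a, b')).1 := by
  obtain ⟨p⟩ := hc2.preconnected b b'
  induction p with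
  | nil => rfl
  | @cons b c b' hbc p ih =>
    rw [← ih]
    have h1 := eqv_type (hgc (a, b) (a, c) (SimpleGraph.boxProd_adj_right.2 hbc))
    exact h1.2 rfl

theorem cls_snd (hg : Geometric Γ (X1 × X2) (G1 □ G2)) (hc1 : G1.Connected) {g : Γ}
    (hgc : g ∈ clsSub hg) (a a' : X1) (b : X2) : (g • (a, b)).2 = (g • (a', b)).2 := by
  obtain ⟨p⟩ := hc1.preconnected a a'
  induction p with
  | nil => rfl
  | @cons a c a' hac p ih =>
    rw [← ih]
    have h0 : (G1 □ G2).Adj (a, b) (c, b) := SimpleGraph.boxProd_adj_left.2 hac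
    have h1 := eqv_type (hgc (a, b) (c, b) h0)
    have h2 := (hg.adj g (a, b) (c, b)).2 h0
    rw [SimpleGraph.boxProd_adj] at h2
    rcases h2 with ⟨_, h2⟩ | ⟨_, h2⟩
    · exact h2
    · exact absurd (h1.1 h2) hac.ne

end Prod

end Pool.Agent.Lib.MP_3e27e0_al.PR
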