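import Pool.Agent.Lib.MP_3e27e0_al.PR.Final
import Pool.Agent.Lib.MP_3e27e0_al.PR.Split

/-!
# Project PR: groups acting geometrically on a graph isomorphic to a product
-/

set_option autoImplicit false

namespace Pool.Agent.Lib.MP_3e27e0_al.PR

open Pool.Agent.Lib.MP_3e27e0_al.CM

open scoped SimpleGraph

/-- Transport of a geometric action along an isomorphism of graphs. -/
theorem Model.transport {Γ X Y : Type*} [Group Γ] [MulAction Γ X] [MulAction Γ Y]
    {G : SimpleGraph X} {G' : SimpleGraph Y} (hM : Model Γ X G) (e : G ≃g G')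
    (he : ∀ (g : Γ) (x : X), e (g • x) = g • e x) : Model Γ Y G' := by
  obtain ⟨hc, hlf, hg⟩ := hM
  have he' : ∀ (g : Γ) (y : Y), e.symm (g • y) = g • e.symm y := by
    intro g y
    apply e.injective
    rw [he, e.apply_symm_apply, e.apply_symm_apply]
  refine ⟨(SimpleGraph.Iso.connected_iff e).1 hc, fun y => ?_, ⟨fun g x y => ?_, fun y => ?_, ?_⟩⟩
  · refine ((hlf (e.symm y)).image e).subset fun z hz => ⟨e.symm z, ?_, e.apply_symm_apply z⟩
    have h1 : G'.Adj y z := hz
    exact e.symm.map_adj_iff.2 h1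
  · rw [← e.symm.map_adj_iff, he', he', hg.adj, e.symm.map_adj_iff]
  · refine (hg.fin (e.symm y)).subset fun g hgy => ?_
    have h1 : g • y = y := hgy
    have h2 : g • e.symm y = e.symm y := by rw [← he', h1]
    exact h2
  · have := hg.cof
    refine Finite.of_surjective (fun q : MulAction.orbitRel.Quotient Γ X =>
      (Quotient.mk'' (e (Quotient.out q)) : MulAction.orbitRel.Quotient Γ Y)) ?_
    intro q
    refine ⟨Quotient.mk'' (e.symm (Quotient.out q)), ?_⟩
    obtain ⟨g, hg'⟩ := exists_out (Γ := Γ) (e.symm (Quotient.out q))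
    have h1 : g • e (Quotient.out (Quotient.mk'' (e.symm (Quotient.out q)) :
        MulAction.orbitRel.Quotient Γ X)) = Quotient.out q := by
      rw [← he, hg', e.apply_symm_apply]
    refine Eq.trans ?_ (Quotient.out_eq q)
    refine Quotient.sound ?_
    refine ⟨g⁻¹, ?_⟩
    exact inv_smul_eq_iff.2 h1.symm

/-- Restriction of a geometric action to a subgroup of finite index (given by an injective
homomorphism). -/
theorem Model.restrict {Γ Γ2 X : Type*} [Group Γ] [Group Γ2] [MulAction Γ X] [MulAction Γ2 X]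
    {G : SimpleGraph X} (hM : Model Γ X G) (j : Γ2 →* Γ) (hj : Function.Injective j)
    (hr : j.range.FiniteIndex) (hs : ∀ (g : Γ2) (x : X), g • x = j g • x) : Model Γ2 X G := by
  obtain ⟨hc, hlf, hg⟩ := hM
  refine ⟨hc, hlf, ⟨fun g x y => by rw [hs, hs, hg.adj], fun x => ?_, ?_⟩⟩
  · refine ((hg.fin x).preimage hj.injOn).subset fun g hgx => ?_
    have h1 : g • x = x := hgx
    rw [hs] at h1
    exact h1
  · have := hg.cof
    have hq : Finite (Γ ⧸ j.range) := Subgroup.finite_quotient_of_finiteIndex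
    refine Finite.of_surjective (fun q : MulAction.orbitRel.Quotient Γ X × (Γ ⧸ j.range) =>
      (Quotient.mk'' ((Quotient.out q.2)⁻¹ • (Quotient.out q.1)) :
        MulAction.orbitRel.Quotient Γ2 X)) ?_
    intro q
    set x := Quotient.out q with hx
    obtain ⟨g, hg'⟩ := exists_out (Γ := Γ) x
    -- `g⁻¹ = t * j h`, `g = (j h)⁻¹ * t⁻¹`
    have h1 : (Quotient.out (QuotientGroup.mk g⁻¹ : Γ ⧸ j.range))⁻¹ * g⁻¹ ∈ j.range :=
      QuotientGroup.eq.1 (Quotient.out_eq _)
    obtain ⟨h, hh⟩ := h1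
    refine ⟨(Quotient.mk'' x, QuotientGroup.mk g⁻¹), ?_⟩
    refine Eq.trans ?_ (Quotient.out_eq q)
    refine Quotient.sound ?_
    refine ⟨h, ?_⟩
    change h • Quotient.out q = _
    rw [← hx, hs, hh, mul_smul]
    congr 1
    rw [inv_smul_eq_iff]
    exact hg'.symm

theorem no_prod2 {Γ X X1 X2 : Type*} {G : SimpleGraph X} {G1 : SimpleGraph X1} {G2 : SimpleGraph X2}
    [Group Γ] [MulAction Γ X] (hM : Model Γ X G) (e : G ≃g (G1 □ G2))
    (hS : ∀ H : Subgroup Γ, H.FiniteIndex → ∃ (Γ2 : Type) (_ : Group Γ2) (j : Γ2 →* Γ),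
      Function.Injective j ∧ j.range = H ∧ Good Γ2 ∧ ∃ (y : Γ2) (C : Subgroup Γ2), Prp Γ2 y C) :
    Finite X1 ∨ Finite X2 := by
  let act : MulAction Γ (X1 × X2) := Equiv.mulAction Γ e.symm.toEquiv
  have hM1 : Model Γ (X1 × X2) (G1 □ G2) := Model.transport hM e (by
    intro g x
    change e (g • x) = e (g • e.symm (e x))
    rw [e.symm_apply_apply])
  obtain ⟨hc, hlf, hg⟩ := hM1
  have hc1 : G1.Connected := hc.ofBoxProdLeft
  have hc2 : G2.Connected := hc.ofBoxProdRight
  obtain ⟨a0⟩ := hc1.nonempty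
  obtain ⟨b0⟩ := hc2.nonempty
  have : (G1 □ G2).LocallyFinite := fun x => (hlf x).fintype
  obtain ⟨Γ2, _, j, hj, hjr, hG, y, C, hP⟩ := hS (clsSub hg) (clsSub_fin hg hc)
  have hjm : ∀ g, j g ∈ clsSub hg := fun g => by rw [← hjr]; exact ⟨g, rfl⟩
  let act1 : MulAction Γ2 X1 :=
    { smul := fun g a => (j g • (a, b0)).1
      one_smul := by
        intro a
        change (j 1 • (a, b0)).1 = a
        rw [map_one, one_smul]
      mul_smul := by
        intro g h a
        change (j (g * h) • (a, b0)).1 = (j g • ((j h • (a, b0)).1, b0)).1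
        rw [map_mul, mul_smul]
        exact cls_fst hg hc2 (hjm g) _ _ _ }
  let act2 : MulAction Γ2 X2 :=
    { smul := fun g b => (j g • (a0, b)).2
      one_smul := by
        intro b
        change (j 1 • (a0, b)).2 = b
        rw [map_one, one_smul]
      mul_smul := by
        intro g h b
        change (j (g * h) • (a0, b)).2 = (j g • (a0, (j h • (a0, b)).2)).2
        rw [map_mul, mul_smul]
        exact cls_snd hg hc1 (hjm g) _ _ _ }
  have hM2 : Model Γ2 (X1 × X2) (G1 □ G2) := by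
    refine Model.restrict (Γ := Γ) ⟨hc, hlf, hg⟩ j hj (by rw [hjr]; exact clsSub_fin hg hc) ?_
    rintro g ⟨a, b⟩
    refine Prod.ext ?_ ?_
    · exact cls_fst hg hc2 (hjm g) _ _ _
    · exact cls_snd hg hc1 (hjm g) _ _ _
  exact no_prod hG hP hM2

end Pool.Agent.Lib.MP_3e27e0_al.PR
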